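import Mathlib

namespace Pool.Agent.P.MP_28ad2c_co

open Finset Filter Topology

open scoped Classical

/-- number of `u < X` with `P u` -/
noncomputable def cnt (P : ℕ → Prop) (X : ℕ) : ℕ := ((range X).filter P).card

/-- `P` only depends on the residue mod `N` -/
def Per (P : ℕ → Prop) (N : ℕ) : Prop := ∀ u v : ℕ, u ≡ v [MOD N] → P u → P v

/-- upper density at most `x` -/
def Dle (P : ℕ → Prop) (x : ℝ) : Prop := ∃ C : ℝ, ∀ X : ℕ, (cnt P X : ℝ) ≤ x * X + C

/-- density zero -/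
def Small (P : ℕ → Prop) : Prop := ∀ ε : ℝ, 0 < ε → Dle P ε

lemma cnt_mono {P Q : ℕ → Prop} (h : ∀ u, P u → Q u) (X : ℕ) : cnt P X ≤ cnt Q X := by
  unfold cnt
  apply card_le_card
  intro u hu
  simp only [mem_filter] at hu ⊢
  exact ⟨hu.1, h u hu.2⟩

lemma cnt_or (P Q : ℕ → Prop) (X : ℕ) : cnt (fun u => P u ∨ Q u) X ≤ cnt P X + cnt Q X := by
  unfold cnt
  refine le_trans (card_le_card ?_) (card_union_le _ _)
  intro u hu
  simp only [mem_filter, mem_union] at hu ⊢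
  tauto

lemma Dle.mono {P Q : ℕ → Prop} {x : ℝ} (h : ∀ u, P u → Q u) (hQ : Dle Q x) : Dle P x := by
  obtain ⟨C, hC⟩ := hQ
  refine ⟨C, fun X => le_trans ?_ (hC X)⟩
  exact_mod_cast cnt_mono h X

lemma Dle.or {P Q : ℕ → Prop} {x y : ℝ} (hP : Dle P x) (hQ : Dle Q y) :
    Dle (fun u => P u ∨ Q u) (x + y) := by
  obtain ⟨C, hC⟩ := hP
  obtain ⟨D, hD⟩ := hQ
  refine ⟨C + D, fun X => ?_⟩
  have h1 : (cnt (fun u => P u ∨ Q u) X : ℝ) ≤ cnt P X + cnt Q X := by
    exact_mod_cast cnt_or P Q X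
  have := hC X
  have := hD X
  nlinarith

lemma Small.mono {P Q : ℕ → Prop} (h : ∀ u, P u → Q u) (hQ : Small Q) : Small P :=
  fun ε hε => (hQ ε hε).mono h

lemma Small.or {P Q : ℕ → Prop} (hP : Small P) (hQ : Small Q) : Small (fun u => P u ∨ Q u) := by
  intro ε hε
  have := (hP (ε / 2) (by positivity)).or (hQ (ε / 2) (by positivity))
  simpa using this

lemma small_false : Small (fun _ => False) := by
  intro ε hε
  refine ⟨0, fun X => ?_⟩
  simp [cnt]; positivity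

lemma Small.exists_finset {ι : Type*} (s : Finset ι) (P : ι → ℕ → Prop)
    (h : ∀ i ∈ s, Small (P i)) : Small (fun u => ∃ i ∈ s, P i u) := by
  induction s using Finset.induction_on with
  | empty => exact small_false.mono (by simp)
  | insert i s hi ih =>
    have h1 := h i (mem_insert_self _ _)
    have h2 := ih (fun j hj => h j (mem_insert_of_mem hj))
    refine (h1.or h2).mono ?_
    rintro u ⟨j, hj, hu⟩
    rcases mem_insert.mp hj with rfl | hj
    · exact Or.inl hu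
    · exact Or.inr ⟨j, hj, hu⟩

lemma Small.tendsto {P : ℕ → Prop} (h : Small P) :
    Tendsto (fun X : ℕ => (cnt P X : ℝ) / X) atTop (𝓝 0) := by
  rw [Metric.tendsto_atTop]
  intro ε hε
  obtain ⟨C, hC⟩ := h (ε / 2) (by positivity)
  obtain ⟨N, hN⟩ := exists_nat_gt (2 * |C| / ε)
  refine ⟨N + 1, fun X hX => ?_⟩
  have hX0 : (0 : ℝ) < X := by
    have : 0 < X := by omega
    exact_mod_cast this
  have hXN : (N : ℝ) ≤ X := by
    have : N ≤ X := by omega
    exact_mod_cast this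
  rw [Real.dist_eq, sub_zero, abs_of_nonneg (by positivity), div_lt_iff₀ hX0]
  have h1 := hC X
  rw [div_lt_iff₀ hε] at hN
  have h2 := le_abs_self C
  nlinarith

lemma cnt_mul_period {P : ℕ → Prop} {N : ℕ} (hP : Per P N) (k : ℕ) :
    cnt P (N * k) = k * cnt P N := by
  induction k with
  | zero => simp [cnt]
  | succ k ih =>
    have h1 : cnt P (N * (k + 1)) = cnt P (N * k) + cnt P N := by
      unfold cnt
      rw [Nat.mul_succ, range_add, filter_union, card_union_of_disjoint]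
      · congr 1
        rw [filter_map, card_map]
        congr 1
        apply filter_congr
        intro u _
        simp only [Function.comp, addLeftEmbedding_apply]
        constructor
        · apply hP
          unfold Nat.ModEq; simp
        · apply hP
          unfold Nat.ModEq; simp
      · exact disjoint_filter_filter (disjoint_range_addLeftEmbedding _ _)
    rw [h1, ih]; ring

lemma cnt_mono_right (P : ℕ → Prop) {X Y : ℕ} (h : X ≤ Y) : cnt P X ≤ cnt P Y := by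
  unfold cnt
  apply card_le_card
  exact filter_subset_filter _ (range_subset_range.mpr h)

lemma Per.dle {P : ℕ → Prop} {N : ℕ} (hN : 0 < N) (hP : Per P N) {x : ℝ}
    (hx : (cnt P N : ℝ) ≤ x * N) : Dle P x := by
  refine ⟨x * N, fun X => ?_⟩
  have h1 : X ≤ N * (X / N + 1) := by
    have := Nat.lt_div_mul_add (a := X) hN
    nlinarith
  have h2 := cnt_mono_right P h1
  rw [cnt_mul_period hP] at h2
  have h3 : (cnt P X : ℝ) ≤ ((X / N : ℕ) + 1 : ℝ) * cnt P N := by exact_mod_cast h2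
  have h4 : ((X / N : ℕ) : ℝ) * N ≤ X := by exact_mod_cast Nat.div_mul_le_self X N
  have h5 : (0 : ℝ) ≤ x := by
    have : (0 : ℝ) < N := by exact_mod_cast hN
    by_contra hneg
    push Not at hneg
    have : (0 : ℝ) ≤ cnt P N := by positivity
    nlinarith
  have h6 : (0 : ℝ) ≤ ((X / N : ℕ) : ℝ) := by positivity
  calc (cnt P X : ℝ) ≤ ((X / N : ℕ) + 1 : ℝ) * (x * N) := h3.trans (by gcongr)
    _ = x * (((X / N : ℕ) : ℝ) * N) + x * N := by ring
    _ ≤ x * X + x * N := by gcongr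

lemma cnt_crt {P Q : ℕ → Prop} {N M : ℕ} (hN : 0 < N) (hM : 0 < M) (hc : N.Coprime M)
    (hP : Per P N) (hQ : Per Q M) :
    cnt (fun u => P u ∧ Q u) (N * M) ≤ cnt P N * cnt Q M := by
  unfold cnt
  rw [← card_product]
  refine card_le_card_of_injOn (fun u => (u % N, u % M)) ?_ ?_
  · intro u hu
    simp only [coe_filter, mem_range, Set.mem_ofPred_eq, coe_product, Set.mem_prod] at hu ⊢
    exact ⟨⟨Nat.mod_lt _ hN, hP _ _ (Nat.mod_modEq u N).symm hu.2.1⟩,
      ⟨Nat.mod_lt _ hM, hQ _ _ (Nat.mod_modEq u M).symm hu.2.2⟩⟩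
  · intro u hu v hv huv
    simp only [coe_filter, mem_range, Set.mem_ofPred_eq] at hu hv
    simp only [Prod.mk.injEq] at huv
    have : u ≡ v [MOD N * M] := (Nat.modEq_and_modEq_iff_modEq_mul hc).mp ⟨huv.1, huv.2⟩
    exact Nat.ModEq.eq_of_lt_of_lt this hu.1 hv.1

lemma sieve_finset (G : ℕ → ℕ → Prop) (s : Finset ℕ) (hs : ∀ q ∈ s, q.Prime)
    (hG : ∀ q ∈ s, Per (G q) (q ^ 2))
    (hc : ∀ q ∈ s, (cnt (G q) (q ^ 2) : ℝ) ≤ (1 - 1 / (2 * q)) * (q ^ 2 : ℕ)) :
    Per (fun u => ∀ q ∈ s, G q u) (∏ q ∈ s, q ^ 2) ∧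
    (cnt (fun u => ∀ q ∈ s, G q u) (∏ q ∈ s, q ^ 2) : ℝ) ≤
      Real.exp (-∑ q ∈ s, 1 / (2 * (q : ℝ))) * (∏ q ∈ s, q ^ 2 : ℕ) := by
  induction s using Finset.induction_on with
  | empty =>
    refine ⟨fun u v _ _ => by simp, ?_⟩
    simp [cnt]
  | insert q s hq ih =>
    obtain ⟨ih1, ih2⟩ := ih (fun r hr => hs r (mem_insert_of_mem hr))
      (fun r hr => hG r (mem_insert_of_mem hr)) (fun r hr => hc r (mem_insert_of_mem hr))
    have hqp := hs q (mem_insert_self _ _)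
    have hq1 := hG q (mem_insert_self _ _)
    have hq2 := hc q (mem_insert_self _ _)
    rw [prod_insert hq, sum_insert hq]
    have hpos : 0 < ∏ r ∈ s, r ^ 2 :=
      prod_pos fun r hr => pow_pos (hs r (mem_insert_of_mem hr)).pos 2
    have hcop : (q ^ 2).Coprime (∏ r ∈ s, r ^ 2) := by
      apply Nat.Coprime.prod_right
      intro r hr
      apply Nat.Coprime.pow
      rw [Nat.coprime_primes hqp (hs r (mem_insert_of_mem hr))]
      rintro rfl
      exact hq hr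
    constructor
    · intro u v huv hu r hr
      rcases mem_insert.mp hr with rfl | hr'
      · exact hq1 u v (huv.of_mul_right _) (hu r hr)
      · exact ih1 u v (huv.of_mul_left _) (fun t ht => hu t (mem_insert_of_mem ht)) r hr'
    · have h1 := cnt_crt (pow_pos hqp.pos 2) hpos hcop hq1 ih1
      have h2 : cnt (fun u => ∀ r ∈ insert q s, G r u) (q ^ 2 * ∏ r ∈ s, r ^ 2) ≤
          cnt (fun u => G q u ∧ ∀ r ∈ s, G r u) (q ^ 2 * ∏ r ∈ s, r ^ 2) :=
        cnt_mono (fun u hu => ⟨hu q (mem_insert_self _ _),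
          fun r hr => hu r (mem_insert_of_mem hr)⟩) _
      have h3 : (cnt (fun u => ∀ r ∈ insert q s, G r u) (q ^ 2 * ∏ r ∈ s, r ^ 2) : ℝ) ≤
          (cnt (G q) (q ^ 2) : ℝ) * (cnt (fun u => ∀ r ∈ s, G r u) (∏ r ∈ s, r ^ 2) : ℝ) := by
        exact_mod_cast h2.trans h1
      have h4 : (1 - 1 / (2 * (q : ℝ))) ≤ Real.exp (-(1 / (2 * (q : ℝ)))) := by
        have := Real.add_one_le_exp (-(1 / (2 * (q : ℝ))))
        linarith
      have h5 : (cnt (G q) (q ^ 2) : ℝ) ≤ Real.exp (-(1 / (2 * (q : ℝ)))) * (q ^ 2 : ℕ) :=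
        hq2.trans (by gcongr)
      refine h3.trans ?_
      calc (cnt (G q) (q ^ 2) : ℝ) * (cnt (fun u => ∀ r ∈ s, G r u) (∏ r ∈ s, r ^ 2) : ℝ)
          ≤ (Real.exp (-(1 / (2 * (q : ℝ)))) * (q ^ 2 : ℕ)) *
            (Real.exp (-∑ r ∈ s, 1 / (2 * (r : ℝ))) * (∏ r ∈ s, r ^ 2 : ℕ)) := by
            gcongr
        _ = _ := by
            rw [neg_add, Real.exp_add]; push_cast; ring

/-- qualitative sieve -/
theorem small_of_sieve (S : ℕ → Prop) (hS : ∀ q, S q → q.Prime)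
    (hdiv : ¬ Summable fun n : ℕ => (if S n then (1 : ℝ) / n else 0))
    (G : ℕ → ℕ → Prop) (hG : ∀ q, S q → Per (G q) (q ^ 2))
    (hc : ∀ q, S q → (cnt (G q) (q ^ 2) : ℝ) ≤ (1 - 1 / (2 * q)) * (q ^ 2 : ℕ)) {ε : ℝ}
    (hε : 0 < ε) : ∃ s : Finset ℕ, (∀ q ∈ s, S q) ∧ Dle (fun u => ∀ q ∈ s, G q u) ε := by
  have h0 : ∀ n : ℕ, 0 ≤ (if S n then (1 : ℝ) / n else 0) := by
    intro n; split_ifs <;> positivity
  rw [not_summable_iff_tendsto_nat_atTop_of_nonneg h0] at hdiv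
  obtain ⟨K, hK⟩ := (hdiv.eventually_ge_atTop (2 * (-Real.log ε))).exists
  refine ⟨(range K).filter S, fun q hq => (mem_filter.mp hq).2, ?_⟩
  have hs : ∀ q ∈ (range K).filter S, S q := fun q hq => (mem_filter.mp hq).2
  obtain ⟨h1, h2⟩ := sieve_finset G ((range K).filter S) (fun q hq => hS q (hs q hq))
    (fun q hq => hG q (hs q hq)) (fun q hq => hc q (hs q hq))
  have hpos : 0 < ∏ r ∈ (range K).filter S, r ^ 2 :=
    prod_pos fun r hr => pow_pos (hS r (hs r hr)).pos 2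
  refine h1.dle hpos (h2.trans ?_)
  gcongr
  rw [← sum_filter] at hK
  have h3 : ∑ q ∈ (range K).filter S, 1 / (2 * (q : ℝ)) =
      (1 / 2) * ∑ q ∈ (range K).filter S, (1 : ℝ) / q := by
    rw [mul_sum]; apply sum_congr rfl; intro q _; ring
  rw [h3]
  calc Real.exp (-(1 / 2 * ∑ q ∈ (range K).filter S, (1 : ℝ) / q)) ≤ Real.exp (Real.log ε) := by
        apply Real.exp_le_exp.mpr; linarith
    _ = ε := Real.exp_log hε

/-- removing one class mod `q` except for one class mod `q^2` -/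
lemma cnt_class (q t : ℕ) (hq : 2 ≤ q) :
    (cnt (fun u => ¬ u ≡ t [MOD q] ∨ u ≡ t [MOD q ^ 2]) (q ^ 2) : ℝ) ≤
      (1 - 1 / (2 * q)) * (q ^ 2 : ℕ) := by
  have hq0 : 0 < q := by omega
  have h1 := cnt_or (fun u => ¬ u ≡ t [MOD q]) (fun u => u ≡ t [MOD q ^ 2]) (q ^ 2)
  have h2 : cnt (fun u => u ≡ t [MOD q ^ 2]) (q ^ 2) ≤ 1 := by
    unfold cnt
    rw [card_le_one]
    intro a ha b hb
    simp only [mem_filter, mem_range] at ha hb
    exact Nat.ModEq.eq_of_lt_of_lt (ha.2.trans hb.2.symm) ha.1 hb.1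
  have h3 : cnt (fun u => ¬ u ≡ t [MOD q]) (q ^ 2) = q * cnt (fun u => ¬ u ≡ t [MOD q]) q := by
    rw [pow_two]
    apply cnt_mul_period
    intro u v huv hu hv
    exact hu (huv.trans hv)
  have h4 : cnt (fun u => ¬ u ≡ t [MOD q]) q ≤ q - 1 := by
    unfold cnt
    refine (card_le_card (t := (range q).erase (t % q)) ?_).trans ?_
    · intro u hu
      simp only [mem_filter, mem_range, mem_erase] at hu ⊢
      refine ⟨?_, hu.1⟩
      rintro rfl
      exact hu.2 (Nat.mod_modEq t q)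
    rw [card_erase_of_mem (mem_range.mpr (Nat.mod_lt _ hq0)), card_range]
  have h5 : cnt (fun u => ¬ u ≡ t [MOD q] ∨ u ≡ t [MOD q ^ 2]) (q ^ 2) ≤ q * (q - 1) + 1 := by
    refine h1.trans ?_
    rw [h3]
    gcongr
  have h6 : (cnt (fun u => ¬ u ≡ t [MOD q] ∨ u ≡ t [MOD q ^ 2]) (q ^ 2) : ℝ) ≤
      q * (q - 1) + 1 := by
    have : ((q * (q - 1) + 1 : ℕ) : ℝ) = q * (q - 1) + 1 := by
      push_cast [Nat.cast_sub (show 1 ≤ q by omega)]; ring
    rw [← this]; exact_mod_cast h5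
  refine h6.trans ?_
  have hq2 : (2 : ℝ) ≤ q := by exact_mod_cast hq
  have : (1 - 1 / (2 * (q : ℝ))) * (q ^ 2 : ℕ) = q ^ 2 - q / 2 := by
    push_cast; field_simp
  rw [this]
  nlinarith

lemma per_class (q t : ℕ) : Per (fun u => ¬ u ≡ t [MOD q] ∨ u ≡ t [MOD q ^ 2]) (q ^ 2) := by
  intro u v huv hu
  rcases hu with hu | hu
  · left
    intro hv
    apply hu
    have : u ≡ v [MOD q] := huv.of_dvd (dvd_pow_self q two_ne_zero)
    exact this.trans hv
  · right; exact huv.symm.trans hu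

end Pool.Agent.P.MP_28ad2c_co
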