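import Mathlib

namespace Pool.Agent.P.MP_28ad2c_co

open Finset

/-- the ring of algebraic integers in the complex numbers -/
abbrev OO : Type := integralClosure ℤ ℂ

lemma exists_max (q : ℕ) (hq : q.Prime) :
    ∃ I : Ideal OO, I.IsMaximal ∧ (q : OO) ∈ I ∧ ∀ k : ℤ, (k : OO) ∈ I → (q : ℤ) ∣ k := by
  have hnu : ¬ IsUnit (q : OO) := by
    intro hu
    obtain ⟨y, hy⟩ := hu.exists_right_inv
    have hy' : (q : ℂ) * (y : ℂ) = 1 := by
      have := congrArg (fun z : OO => (z : ℂ)) hy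
      simpa using this
    have hq0 : (q : ℂ) ≠ 0 := by exact_mod_cast hq.ne_zero
    have hyq : (y : ℂ) = algebraMap ℚ ℂ (1 / q) := by
      simp only [one_div, eq_ratCast, Rat.cast_inv, Rat.cast_natCast]
      exact eq_inv_of_mul_eq_one_right hy'
    have hint : IsIntegral ℤ (y : ℂ) := y.2
    rw [hyq, isIntegral_algebraMap_iff (algebraMap ℚ ℂ).injective] at hint
    obtain ⟨z, hz⟩ := IsIntegrallyClosed.isIntegral_iff.mp hint
    have hq1 : (q : ℚ) ≠ 0 := by exact_mod_cast hq.ne_zero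
    have h2 : (q : ℚ) * z = 1 := by
      have : (z : ℚ) = 1 / q := by simpa using hz
      rw [this]; field_simp
    have h3 : (q : ℤ) * z = 1 := by exact_mod_cast h2
    have h4 : (q : ℤ) ∣ 1 := ⟨z, h3.symm⟩
    have h5 : q ∣ 1 := by exact_mod_cast h4
    exact hq.one_lt.ne' (Nat.dvd_one.mp h5)
  obtain ⟨I, hI, hqI⟩ := exists_max_ideal_of_mem_nonunits (mem_nonunits_iff.mpr hnu)
  refine ⟨I, hI, hqI, fun k hk => ?_⟩
  by_contra hnd
  have hc : IsCoprime (q : ℤ) k :=
    (Nat.prime_iff_prime_int.mp hq).irreducible.coprime_iff_not_dvd.mpr hnd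
  obtain ⟨a, b, hab⟩ := hc
  apply hI.ne_top
  rw [Ideal.eq_top_iff_one]
  have : (1 : OO) = (a : OO) * (q : OO) + (b : OO) * (k : OO) := by
    have := congrArg (fun z : ℤ => (z : OO)) hab
    simpa using this.symm
  rw [this]
  exact I.add_mem (I.mul_mem_left _ hqI) (I.mul_mem_left _ hk)

/-- `a` and `b` are swapped by the Frobenius map mod `q` -/
def Conj (q : ℕ) (a b : OO) : Prop := (q : OO) ∣ a ^ q - b ∧ (q : OO) ∣ b ^ q - a

lemma conj_local {q : ℕ} (hq : q.Prime) {I : Ideal OO} (hI : I.IsMaximal) (hqI : (q : OO) ∈ I)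
    {a b : OO} (h : Conj q a b) (hab : a * b ∈ I) :
    ∃ e : OO, e ∉ I ∧ (q : OO) ^ 2 ∣ e * (a * b) := by
  have hP := hI.isPrime
  have hq0 := hq.ne_zero
  have key : ∀ x y : OO, (q : OO) ∣ x ^ q - y → x ∈ I → y ∈ I := by
    intro x y hxy hx
    have h1 : x ^ q - y ∈ I := by
      obtain ⟨c, hc⟩ := hxy
      rw [hc]; exact I.mul_mem_right _ hqI
    have h2 : x ^ q ∈ I := I.pow_mem_of_mem hx q hq.pos
    have := I.sub_mem h2 h1
    simpa using this
  have hboth : a ∈ I ∧ b ∈ I := by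
    rcases hP.mem_or_mem hab with ha | hb
    · exact ⟨ha, key a b h.1 ha⟩
    · exact ⟨key b a h.2 hb, hb⟩
  have key2 : ∀ x y : OO, (q : OO) ∣ x ^ q - y → (q : OO) ∣ y ^ q - x → x ∈ I →
      ∃ e : OO, e ∉ I ∧ (q : OO) ∣ e * x := by
    intro x y hxy hyx hx
    have h1 : (q : OO) ∣ (x ^ q) ^ q - y ^ q := hxy.trans (sub_dvd_pow_sub_pow _ _ _)
    have h2 : (q : OO) ∣ (x ^ q) ^ q - x := by
      have := dvd_add h1 hyx
      simpa using this
    have h3 : 2 ≤ q * q := by nlinarith [hq.two_le]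
    refine ⟨1 - x ^ (q * q - 1), ?_, ?_⟩
    · intro hm
      have h4 : x ^ (q * q - 1) ∈ I := I.pow_mem_of_mem hx _ (by omega)
      have h5 := I.add_mem hm h4
      apply hI.ne_top
      rw [Ideal.eq_top_iff_one]
      simpa using h5
    · have h4 : (1 - x ^ (q * q - 1)) * x = -((x ^ q) ^ q - x) := by
        rw [← pow_mul]
        have : x ^ (q * q) = x ^ (q * q - 1) * x := by
          rw [← pow_succ]; congr 1; omega
        rw [this]; ring
      rw [h4]
      exact h2.neg_right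
  obtain ⟨e1, he1, hd1⟩ := key2 a b h.1 h.2 hboth.1
  obtain ⟨e2, he2, hd2⟩ := key2 b a h.2 h.1 hboth.2
  refine ⟨e1 * e2, fun hm => (hP.mem_or_mem hm).elim he1 he2, ?_⟩
  have := mul_dvd_mul hd1 hd2
  rw [← pow_two] at this
  convert this using 1
  ring

lemma natCast_pow_sub_mem {R : Type*} [CommRing R] {q : ℕ} (hq : q.Prime) {I : Ideal R}
    (hqI : (q : R) ∈ I) (u : ℕ) : (u : R) ^ q - u ∈ I := by
  have := Fact.mk hq
  have h1 : (q : ℤ) ∣ (u : ℤ) ^ q - u := by
    rw [← ZMod.intCast_zmod_eq_zero_iff_dvd]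
    push_cast
    rw [ZMod.pow_card]; simp
  obtain ⟨c, hc⟩ := h1
  have h2 := congrArg (fun z : ℤ => (z : R)) hc
  push_cast at h2
  rw [h2]
  exact I.mul_mem_right _ hqI

lemma card_le_of_frob {F : Type*} [CommRing F] [IsDomain F] {q : ℕ} (hq : 1 < q) (s : Finset F)
    (hs : ∀ z ∈ s, z ^ q - z = 0) : s.card ≤ q := by
  classical
  have hdeg : (Polynomial.X ^ q - Polynomial.X : Polynomial F).natDegree = q := by
    rw [Polynomial.natDegree_sub_eq_left_of_natDegree_lt] <;> simp [hq]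
  have hX : (Polynomial.X ^ q - Polynomial.X : Polynomial F) ≠ 0 :=
    Polynomial.ne_zero_of_natDegree_gt (n := 1) (by rw [hdeg]; exact hq)
  have hsub : s ⊆ (Polynomial.X ^ q - Polynomial.X : Polynomial F).roots.toFinset := by
    intro z hz
    rw [Multiset.mem_toFinset, Polynomial.mem_roots hX]
    simp only [Polynomial.IsRoot.def, Polynomial.eval_sub, Polynomial.eval_pow, Polynomial.eval_X]
    exact hs z hz
  have h1 := card_le_card hsub
  have h2 := (Multiset.toFinset_card_le _).trans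
    (Polynomial.card_roots' (Polynomial.X ^ q - Polynomial.X : Polynomial F))
  rw [hdeg] at h2
  exact h1.trans h2

/-- an element fixed by Frobenius modulo `I` is congruent to an integer -/
lemma exists_nat_of_frob {R : Type*} [CommRing R] {q : ℕ} (hq : q.Prime) {I : Ideal R}
    (hI : I.IsMaximal)
    (hqI : (q : R) ∈ I) (hZ : ∀ k : ℤ, (k : R) ∈ I → (q : ℤ) ∣ k) {y : R}
    (hy : y ^ q - y ∈ I) : ∃ t : ℕ, (t : R) - y ∈ I := by
  classical
  have := hI.isPrime
  by_contra hne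
  push Not at hne
  have hcard : (insert (Ideal.Quotient.mk I y)
      ((range q).image fun t : ℕ => Ideal.Quotient.mk I (t : R))).card = q + 1 := by
    rw [card_insert_of_notMem, card_image_of_injOn, card_range]
    · intro a ha b hb hab
      simp only [coe_range, Set.mem_Iio] at ha hb
      have h1 : ((a : R) - b) ∈ I := Ideal.Quotient.eq.mp hab
      have h2 := hZ ((a : ℤ) - b) (by push_cast; exact h1)
      have h3 : (b : ℤ) ≡ a [ZMOD q] := (Int.modEq_iff_dvd).mpr h2
      have h4 : b ≡ a [MOD q] := Int.natCast_modEq_iff.mp h3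
      exact (Nat.ModEq.eq_of_lt_of_lt h4 hb ha).symm
    · intro hm
      obtain ⟨t, _, ht⟩ := mem_image.mp hm
      exact hne t (Ideal.Quotient.eq.mp ht)
  have h1 := card_le_of_frob hq.one_lt (insert (Ideal.Quotient.mk I y)
      ((range q).image fun t : ℕ => Ideal.Quotient.mk I (t : R))) (by
    intro z hz
    rcases mem_insert.mp hz with rfl | hz
    · rw [← map_pow, ← map_sub]; exact Ideal.Quotient.eq_zero_iff_mem.mpr hy
    · obtain ⟨t, _, rfl⟩ := mem_image.mp hz
      rw [← map_pow, ← map_sub]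
      exact Ideal.Quotient.eq_zero_iff_mem.mpr (natCast_pow_sub_mem hq hqI t))
  rw [hcard] at h1
  exact Nat.not_succ_le_self q h1

/-- `u - θ` is a product of two elements swapped by Frobenius mod `q` -/
def NormAt (q : ℕ) (θ : OO) (u : ℕ) : Prop := ∃ a b : OO, Conj q a b ∧ a * b = (u : OO) - θ

theorem exists_class (q : ℕ) (hq : q.Prime) (θ : OO) :
    ∃ t : ℕ, ∀ u : ℕ, NormAt q θ u → (¬ u ≡ t [MOD q] ∨ u ≡ t [MOD q ^ 2]) := by
  obtain ⟨I, hI, hqI, hZ⟩ := exists_max q hq
  have hP := hI.isPrime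
  by_cases h1 : ∃ t : ℕ, NormAt q θ t ∧ (t : OO) - θ ∈ I
  · obtain ⟨t, ⟨a, b, hab, ht⟩, htI⟩ := h1
    refine ⟨t, fun u ⟨c, d, hcd, hu⟩ => ?_⟩
    by_cases hut : u ≡ t [MOD q]
    · right
      obtain ⟨k, hk⟩ := (Nat.modEq_iff_dvd.mp hut)
      have hk' : (t : OO) - u = q * (k : OO) := by
        have := congrArg (fun z : ℤ => (z : OO)) hk
        simpa using this
      have huI : (u : OO) - θ ∈ I := by
        have : (u : OO) - θ = ((t : OO) - θ) - q * (k : OO) := by rw [← hk']; ring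
        rw [this]
        exact I.sub_mem htI (I.mul_mem_right _ hqI)
      obtain ⟨e1, he1, hd1⟩ := conj_local hq hI hqI hab (ht ▸ htI)
      obtain ⟨e2, he2, hd2⟩ := conj_local hq hI hqI hcd (hu ▸ huI)
      rw [ht] at hd1
      rw [hu] at hd2
      have h3 : (q : OO) ^ 2 ∣ q * (e1 * e2 * (k : OO)) := by
        have := dvd_sub (hd1.mul_left e2) (hd2.mul_left e1)
        convert this using 1
        linear_combination (-(e1 * e2)) * hk'
      have hq0 : (q : OO) ≠ 0 := by exact_mod_cast hq.ne_zero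
      rw [pow_two, mul_dvd_mul_iff_left hq0] at h3
      have h4 : e1 * e2 * (k : OO) ∈ I := by
        obtain ⟨r, hr⟩ := h3
        rw [hr]; exact I.mul_mem_right _ hqI
      have h5 : (k : OO) ∈ I := by
        rcases hP.mem_or_mem h4 with h | h
        · exact ((hP.mem_or_mem h).elim he1 he2).elim
        · exact h
      obtain ⟨r, hr⟩ := hZ k h5
      rw [Nat.modEq_iff_dvd]
      refine ⟨r, ?_⟩
      rw [hk, hr]; push_cast; ring
    · exact Or.inl hut
  · push Not at h1
    by_cases h2 : ∃ u : ℕ, NormAt q θ u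
    · obtain ⟨u0, a, b, hab, hu0⟩ := h2
      have h3 : (a * b) ^ q - a * b ∈ I := by
        obtain ⟨c, hc⟩ := hab.1
        obtain ⟨d, hd⟩ := hab.2
        have : (a * b) ^ q - a * b = q * (c * b ^ q + b * d) := by
          rw [mul_pow]
          linear_combination b ^ q * hc + b * hd
        rw [this]; exact I.mul_mem_right _ hqI
      obtain ⟨s, hs⟩ := exists_nat_of_frob hq hI hqI hZ h3
      rw [hu0] at hs
      refine ⟨u0 + (q - 1) * s, fun u hu => Or.inl fun hut => h1 u hu ?_⟩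
      obtain ⟨k, hk⟩ := (Nat.modEq_iff_dvd.mp hut)
      have hk' : (u0 : OO) + ((q : OO) - 1) * s - u = q * (k : OO) := by
        have := congrArg (fun z : ℤ => (z : OO)) hk
        push_cast [Nat.cast_sub hq.one_le] at this
        exact this
      have : (u : OO) - θ = -((s : OO) - (u0 - θ)) + q * ((s : OO) - k) := by
        linear_combination -hk'
      rw [this]
      exact I.add_mem (I.neg_mem hs) (I.mul_mem_right _ hqI)
    · push Not at h2
      exact ⟨0, fun u hu => (h2 u hu).elim⟩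

lemma dvd_sum_pow {R : Type*} [CommRing R] {ι : Type*} {q : ℕ} (hq : q.Prime) (s : Finset ι)
    (f g : ι → R) (hf : ∀ i ∈ s, f i ^ q = g i) :
    (q : R) ∣ (∑ i ∈ s, f i) ^ q - ∑ i ∈ s, g i := by
  classical
  induction s using Finset.induction_on with
  | empty => simp [hq.ne_zero]
  | insert i s hi ih =>
    rw [sum_insert hi, sum_insert hi]
    obtain ⟨r, hr⟩ := exists_add_pow_prime_eq hq (f i) (∑ j ∈ s, f j)
    have h1 := ih (fun j hj => hf j (mem_insert_of_mem hj))
    rw [hr, hf i (mem_insert_self _ _)]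
    have : g i + (∑ j ∈ s, f j) ^ q + (q : R) * f i * (∑ j ∈ s, f j) * r -
        (g i + ∑ j ∈ s, g j) =
        ((∑ j ∈ s, f j) ^ q - ∑ j ∈ s, g j) + q * (f i * (∑ j ∈ s, f j) * r) := by ring
    rw [this]
    exact dvd_add h1 (dvd_mul_right _ _)

/-- Frobenius on a sum of roots of unity -/
lemma conj_sum {ι : Type*} {q : ℕ} (hq : q.Prime) (s : Finset ι) (f g : ι → OO)
    (hf : ∀ i ∈ s, f i ^ q = g i) (hg : ∀ i ∈ s, g i ^ q = f i) :
    Conj q (∑ i ∈ s, f i) (∑ i ∈ s, g i) :=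
  ⟨dvd_sum_pow hq s f g hf, dvd_sum_pow hq s g f hg⟩

end Pool.Agent.P.MP_28ad2c_co
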