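import Pool.Agent.P.MP_28ad2c_co.Dir
import Pool.Agent.P.MP_28ad2c_co.Dens
import Pool.Agent.P.MP_28ad2c_co.Norm

namespace Pool.Agent.P.MP_28ad2c_co

open Finset

lemma exists_zeta (p : ℕ) (hp : p.Prime) : ∃ ζ : OO, ζ ^ p = 1 ∧ ζ ≠ 1 := by
  have h := Complex.isPrimitiveRoot_exp p hp.ne_zero
  refine ⟨⟨_, h.isIntegral hp.pos⟩, ?_, ?_⟩
  · apply Subtype.ext
    simpa using h.pow_eq_one
  · intro h1
    have := congrArg (fun z : OO => (z : ℂ)) h1
    exact h.ne_one hp.one_lt (by simpa using this)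

/-- the basic character identity for a Sidon set -/
lemma sidon_identity {n : ℕ} [NeZero n] (ψ : AddChar (ZMod n) OO) (hψ : ψ ≠ 1)
    (A : Finset (ZMod n))
    (hA : ∀ a ∈ A, ∀ b ∈ A, ∀ c ∈ A, ∀ d ∈ A, a + b = c + d →
      ({a, b} : Multiset (ZMod n)) = {c, d}) :
    ∃ L : Finset (ZMod n), L.card + A.card * A.card = n + A.card ∧
      (∑ a ∈ A, ψ a) * (∑ a ∈ A, ψ (-a)) = (A.card : OO) - ∑ x ∈ L, ψ x := by
  classical
  have hinj : Set.InjOn (fun z : ZMod n × ZMod n => z.1 - z.2) (A.offDiag : Set _) := by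
    rintro ⟨a, b⟩ hab ⟨c, d⟩ hcd h
    simp only [mem_coe, mem_offDiag] at hab hcd h
    have h1 : a + d = c + b := by linear_combination h
    have h2 := hA a hab.1 d hcd.2.1 c hcd.1 b hab.2.1 h1
    have h3 : a ∈ ({c, b} : Multiset (ZMod n)) := by rw [← h2]; simp
    have h4 : a = c := by
      simp only [Multiset.insert_eq_cons, Multiset.mem_cons, Multiset.mem_singleton] at h3
      exact h3.resolve_right hab.2.2
    subst h4
    have : b = d := by linear_combination -h1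
    rw [this]
  refine ⟨(A.offDiag.image fun z => z.1 - z.2)ᶜ, ?_, ?_⟩
  · rw [card_compl, card_image_of_injOn hinj, ZMod.card, offDiag_card]
    have h1 : (A.offDiag.image fun z => z.1 - z.2).card ≤ n := by
      simpa using card_le_univ (A.offDiag.image fun z => z.1 - z.2)
    rw [card_image_of_injOn hinj, offDiag_card] at h1
    have h2 : A.card ≤ A.card * A.card := Nat.le_mul_self _
    omega
  · have h0 : ∑ x, ψ x = 0 := AddChar.sum_eq_zero_of_ne_one hψ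
    rw [← sum_add_sum_compl (A.offDiag.image fun z => z.1 - z.2), sum_image hinj] at h0
    have h1 : (∑ a ∈ A, ψ a) * (∑ a ∈ A, ψ (-a)) = ∑ z ∈ A ×ˢ A, ψ (z.1 - z.2) := by
      rw [sum_mul_sum, sum_product]
      refine sum_congr rfl fun a _ => sum_congr rfl fun b _ => ?_
      rw [sub_eq_add_neg, AddChar.map_add_eq_mul]
    rw [h1, ← diag_union_offDiag, sum_union (disjoint_diag_offDiag _), sum_diag]
    simp only [sub_self, AddChar.map_zero_eq_one, sum_const, nsmul_eq_mul, mul_one]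
    linear_combination h0

lemma sidon_norm {n p k : ℕ} (hp : p.Prime) (hpn : p ∣ n) (hn : 0 < n) {ζ : OO} (hζ : ζ ^ p = 1)
    (hζ1 : ζ ≠ 1) (A : Finset (ZMod n))
    (hA : ∀ a ∈ A, ∀ b ∈ A, ∀ c ∈ A, ∀ d ∈ A, a + b = c + d →
      ({a, b} : Multiset (ZMod n)) = {c, d}) (hk : k + A.card * A.card = n + A.card) :
    ∃ e : Fin k → Fin p, ∀ q : ℕ, q.Prime → p ∣ q + 1 →
      NormAt q (∑ i, ζ ^ (e i : ℕ)) A.card := by
  classical
  have : NeZero n := ⟨hn.ne'⟩
  have hζn : ζ ^ n = 1 := by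
    obtain ⟨r, rfl⟩ := hpn
    rw [pow_mul, hζ, one_pow]
  have hn1 : 1 < n := lt_of_lt_of_le hp.one_lt (Nat.le_of_dvd hn hpn)
  have hψ : AddChar.zmodChar n hζn ≠ 1 := by
    intro h
    have h1 := DFunLike.congr_fun h ((1 : ℕ) : ZMod n)
    rw [AddChar.zmodChar_apply'] at h1
    exact hζ1 (by simpa using h1)
  obtain ⟨L, hL1, hL2⟩ := sidon_identity _ hψ A hA
  have hLk : L.card = k := by omega
  subst hLk
  refine ⟨fun i => ⟨(L.equivFin.symm i : ZMod n).val % p, Nat.mod_lt _ hp.pos⟩, fun q hq hpq => ?_⟩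
  have hpow : ∀ x : ZMod n, AddChar.zmodChar n hζn x ^ q = AddChar.zmodChar n hζn (-x) := by
    intro x
    have h1 : AddChar.zmodChar n hζn x ^ (q + 1) = 1 := by
      obtain ⟨r, hr⟩ := hpq
      rw [hr, AddChar.zmodChar_apply, ← pow_mul, mul_left_comm, pow_mul, hζ, one_pow]
    have h2 : AddChar.zmodChar n hζn x * AddChar.zmodChar n hζn (-x) = 1 := by
      rw [← AddChar.map_add_eq_mul]; simp
    rw [pow_succ] at h1
    linear_combination (AddChar.zmodChar n hζn (-x)) * h1 - (AddChar.zmodChar n hζn x ^ q) * h2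
  refine ⟨_, _, conj_sum hq A (fun a => AddChar.zmodChar n hζn a)
    (fun a => AddChar.zmodChar n hζn (-a)) (fun a _ => hpow a)
    (fun a _ => by rw [hpow, neg_neg]), ?_⟩
  rw [hL2]
  congr 1
  rw [← sum_coe_sort L, ← L.equivFin.symm.sum_comp]
  refine sum_congr rfl fun i _ => ?_
  rw [AddChar.zmodChar_apply]
  exact pow_eq_pow_mod _ hζ

lemma small_norm {p : ℕ} (hp : p.Prime) (θ : OO) :
    Small fun u => ∀ q : ℕ, q.Prime → p ∣ q + 1 → NormAt q θ u := by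
  classical
  have : NeZero p := ⟨hp.ne_zero⟩
  intro ε hε
  choose t ht using fun q : ℕ => (show ∃ t : ℕ, q.Prime → ∀ u : ℕ, NormAt q θ u →
      (¬ u ≡ t [MOD q] ∨ u ≡ t [MOD q ^ 2]) from by
    by_cases hq : q.Prime
    · obtain ⟨t, ht⟩ := exists_class q hq θ
      exact ⟨t, fun _ => ht⟩
    · exact ⟨0, fun h => (hq h).elim⟩)
  have hdiv := not_summable_inv_primes (k := p) (a := -1) isUnit_one.neg
  obtain ⟨s, hs1, hs2⟩ := small_of_sieve (fun q => q.Prime ∧ (q : ZMod p) = -1)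
    (fun q hq => hq.1) (by convert hdiv)
    (fun q u => ¬ u ≡ t q [MOD q] ∨ u ≡ t q [MOD q ^ 2]) (fun q _ => per_class q (t q))
    (fun q hq => cnt_class q (t q) hq.1.two_le) hε
  refine hs2.mono fun u hu q hq => ht q (hs1 q hq).1 u (hu q (hs1 q hq).1 ?_)
  rw [← ZMod.natCast_eq_zero_iff]
  push_cast
  rw [(hs1 q hq).2]; simp

/-- for a fixed prime `p` dividing the modulus -/
lemma small_prime (p l : ℕ) (hp : p.Prime) :
    Small fun m => p ∣ m ^ 2 - m + 1 + l ∧ ∃ A : Finset (ZMod (m ^ 2 - m + 1 + l)), A.card = m ∧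
      ∀ a ∈ A, ∀ b ∈ A, ∀ c ∈ A, ∀ d ∈ A, a + b = c + d →
        ({a, b} : Multiset (ZMod (m ^ 2 - m + 1 + l))) = {c, d} := by
  obtain ⟨ζ, hζ, hζ1⟩ := exists_zeta p hp
  have := Small.exists_finset (univ : Finset (Fin (l + 1) → Fin p))
    (fun e u => ∀ q : ℕ, q.Prime → p ∣ q + 1 → NormAt q (∑ i, ζ ^ (e i : ℕ)) u)
    (fun e _ => small_norm hp _)
  refine this.mono ?_
  rintro m ⟨hpn, A, hAm, hA⟩
  have hk : l + 1 + A.card * A.card = m ^ 2 - m + 1 + l + A.card := by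
    rw [hAm, pow_two]
    have := Nat.le_mul_self m
    omega
  obtain ⟨e, he⟩ := sidon_norm hp hpn (by omega) hζ hζ1 A hA hk
  exact ⟨e, mem_univ _, hAm ▸ he⟩

lemma exists_root (l p : ℕ) (hp : p.Prime) (h : (p : ZMod (4 * (4 * l + 3))) = 1) :
    ∃ t : ℕ, ∀ m : ℕ, m ≡ t [MOD p] → p ∣ m ^ 2 - m + 1 + l := by
  have := Fact.mk hp
  have hmod : p % (4 * (4 * l + 3)) = 1 := by
    have h1 : p ≡ 1 [MOD 4 * (4 * l + 3)] := by
      rw [← ZMod.natCast_eq_natCast_iff]; simpa using h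
    unfold Nat.ModEq at h1
    rw [h1]
    exact Nat.mod_eq_of_lt (by omega)
  have hodd : Odd p := by
    have : p % 2 = 1 := by
      have := Nat.mod_mod_of_dvd p (show 2 ∣ 4 * (4 * l + 3) by omega)
      omega
    exact Nat.odd_iff.mpr this
  have hJ : jacobiSym (-(4 * l + 3 : ℤ)) p = 1 := by
    rw [jacobiSym.mod_right _ hodd]
    have : (-(4 * l + 3 : ℤ)).natAbs = 4 * l + 3 := by omega
    rw [this, hmod, jacobiSym.one_right]
  obtain ⟨s, hs⟩ := ZMod.isSquare_of_jacobiSym_eq_one hJ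
  have h2 : (2 : ZMod p) ≠ 0 := by
    intro h2
    have : p ∣ 2 := by
      rw [← ZMod.natCast_eq_zero_iff]; exact_mod_cast h2
    have := (Nat.prime_dvd_prime_iff_eq hp Nat.prime_two).mp this
    subst this
    exact absurd hodd (by decide)
  refine ⟨((s + 1) / 2).val, fun m hm => ?_⟩
  rw [← ZMod.natCast_eq_zero_iff]
  have hm' : (m : ZMod p) = (s + 1) / 2 := by
    rw [(ZMod.natCast_eq_natCast_iff _ _ _).mpr hm]; simp
  have hle : m ≤ m ^ 2 := by rw [pow_two]; exact Nat.le_mul_self m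
  push_cast [Nat.cast_sub hle] at hs ⊢
  rw [hm']
  field_simp
  linear_combination -hs

lemma dle_rough (l : ℕ) {ε : ℝ} (hε : 0 < ε) : ∃ s : Finset ℕ, (∀ p ∈ s, p.Prime) ∧
    Dle (fun m => ∀ p ∈ s, ¬ p ∣ m ^ 2 - m + 1 + l) ε := by
  classical
  have : NeZero (4 * (4 * l + 3)) := ⟨by omega⟩
  choose t ht using fun p : ℕ => (show ∃ t : ℕ, (p.Prime ∧ (p : ZMod (4 * (4 * l + 3))) = 1) →
      ∀ m : ℕ, m ≡ t [MOD p] → p ∣ m ^ 2 - m + 1 + l from by
    by_cases hq : p.Prime ∧ (p : ZMod (4 * (4 * l + 3))) = 1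
    · obtain ⟨t, ht⟩ := exists_root l p hq.1 hq.2
      exact ⟨t, fun _ => ht⟩
    · exact ⟨0, fun h => (hq h).elim⟩)
  have hdiv := not_summable_inv_primes (k := 4 * (4 * l + 3)) (a := 1) isUnit_one
  obtain ⟨s, hs1, hs2⟩ := small_of_sieve (fun q => q.Prime ∧ (q : ZMod (4 * (4 * l + 3))) = 1)
    (fun q hq => hq.1) (by convert hdiv)
    (fun q u => ¬ u ≡ t q [MOD q]) (fun q _ u v huv hu hv => hu
      ((huv.of_dvd (dvd_pow_self q two_ne_zero)).trans hv))
    (fun q hq => le_trans (by exact_mod_cast cnt_mono (fun u hu => Or.inl hu) _)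
      (cnt_class q (t q) hq.1.two_le)) hε
  exact ⟨s, fun p hp => (hs1 p hp).1,
    hs2.mono fun u hu q hq hm => hu q hq (ht q (hs1 q hq) u hm)⟩

theorem small_fixed (l : ℕ) :
    Small fun m => ∃ A : Finset (ZMod (m ^ 2 - m + 1 + l)), A.card = m ∧
      ∀ a ∈ A, ∀ b ∈ A, ∀ c ∈ A, ∀ d ∈ A, a + b = c + d →
        ({a, b} : Multiset (ZMod (m ^ 2 - m + 1 + l))) = {c, d} := by
  intro ε hε
  obtain ⟨s, hs1, hs2⟩ := dle_rough l (half_pos hε)
  have h1 := Small.exists_finset s _ (fun p hp => small_prime p l (hs1 p hp)) (ε / 2) (half_pos hε)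
  have h2 := hs2.or h1
  rw [add_halves] at h2
  refine h2.mono fun m hm => ?_
  by_cases h : ∀ p ∈ s, ¬ p ∣ m ^ 2 - m + 1 + l
  · exact Or.inl h
  · push Not at h
    obtain ⟨p, hp, hpn⟩ := h
    exact Or.inr ⟨p, hp, hpn, hm⟩

end Pool.Agent.P.MP_28ad2c_co
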