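import Mathlib

namespace Pool.Agent.P.MP_28ad2c_co

open ArithmeticFunction ArithmeticFunction.vonMangoldt Filter Topology

/-- the reciprocals of the primes in an invertible residue class are not summable -/
theorem not_summable_inv_primes {k : ℕ} [NeZero k] {a : ZMod k} (ha : IsUnit a) :
    ¬ Summable fun n : ℕ => (if n.Prime ∧ (n : ZMod k) = a then (1 : ℝ) / n else 0) := by
  intro H
  obtain ⟨C, hC⟩ := LSeries_residueClass_lower_bound ha
  have hnp := summable_residueClass_non_primes_div a
  -- dominated convergence along x = 1 + 1/(j+1)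
  let g : ℕ → ℝ := fun n => (if n.Prime ∧ (n : ZMod k) = a then (1 : ℝ) / n else 0) +
    (if n.Prime then 0 else residueClass a n) / n
  have hg : Summable g := H.add hnp
  let F : ℕ → ℕ → ℝ := fun j n => (1 / ((j : ℝ) + 1)) * (residueClass a n / (n : ℝ) ^ (1 + 1 / ((j : ℝ) + 1)))
  have hbound : ∀ j n, ‖F j n‖ ≤ g n := by
    intro j n
    have hj : (0 : ℝ) < 1 / ((j : ℝ) + 1) := by positivity
    have hj1 : 1 / ((j : ℝ) + 1) ≤ 1 := by
      rw [div_le_one (by positivity)]; linarith [(Nat.cast_nonneg j : (0 : ℝ) ≤ j)]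
    have hr := residueClass_nonneg a n
    rcases Nat.eq_zero_or_pos n with rfl | hn
    · simp [F, g]
    have hn0 : (0 : ℝ) < n := by exact_mod_cast hn
    have hn1 : (1 : ℝ) ≤ n := by exact_mod_cast hn
    have hF : 0 ≤ F j n := by
      simp only [F]; positivity
    rw [Real.norm_of_nonneg hF]
    obtain ⟨d, hd⟩ : ∃ d : ℝ, d = 1 / ((j : ℝ) + 1) := ⟨_, rfl⟩
    simp only [F, g]
    rw [← hd] at hj hj1 ⊢
    have hpow : (n : ℝ) ^ (1 + d) = n * (n : ℝ) ^ d := by
      rw [Real.rpow_add hn0, Real.rpow_one]
    have hpd : 1 ≤ (n : ℝ) ^ d := Real.one_le_rpow hn1 hj.le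
    by_cases hp : n.Prime
    · by_cases hc : (n : ZMod k) = a
      · simp only [hp, hc, and_self, if_true, zero_div, add_zero]
        have h1 : residueClass a n ≤ Real.log n := (residueClass_le a n).trans vonMangoldt_le_log
        have h2 : d * Real.log n ≤ (n : ℝ) ^ d := by
          have : Real.log ((n : ℝ) ^ d) = d * Real.log n := Real.log_rpow hn0 d
          rw [← this]
          have := Real.log_le_sub_one_of_pos (show 0 < (n : ℝ) ^ d by positivity)
          linarith
        rw [hpow, ← mul_div_assoc, div_le_div_iff₀ (by positivity) hn0]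
        have : d * residueClass a n ≤ (n : ℝ) ^ d := le_trans (by gcongr) h2
        nlinarith
      · have : residueClass a n = 0 := by
          simp [residueClass, Set.indicator, hc]
        simp [hp, hc, this]
    · simp only [hp, false_and, if_false, zero_add]
      rw [hpow, ← mul_div_assoc, div_le_div_iff₀ (by positivity) hn0]
      have h1 : d * residueClass a n ≤ residueClass a n := by nlinarith
      have h2 : (n : ℝ) ≤ n * (n : ℝ) ^ d := by nlinarith
      calc d * residueClass a n * n ≤ residueClass a n * n := by gcongr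
        _ ≤ _ := by gcongr
  have hlim : ∀ n, Tendsto (fun j => F j n) atTop (𝓝 0) := by
    intro n
    have h0 : Tendsto (fun j : ℕ => (1 / ((j : ℝ) + 1)) * residueClass a n) atTop (𝓝 0) := by
      simpa using tendsto_one_div_add_atTop_nhds_zero_nat.mul_const (residueClass a n)
    refine squeeze_zero (fun j => ?_) (fun j => ?_) h0
    · have := residueClass_nonneg a n
      simp only [F]; positivity
    · rcases Nat.eq_zero_or_pos n with rfl | hn
      · simp [F]
      have hn1 : (1 : ℝ) ≤ n := by exact_mod_cast hn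
      have hr := residueClass_nonneg a n
      simp only [F]
      gcongr
      exact div_le_self hr (Real.one_le_rpow hn1 (by positivity))
  have hT := tendsto_tsum_of_dominated_convergence hg hlim (Eventually.of_forall hbound)
  simp only [tsum_zero] at hT
  have hlow : ∀ j : ℕ, (k.totient : ℝ)⁻¹ - C * (1 / ((j : ℝ) + 1)) ≤ ∑' n, F j n := by
    intro j
    have hj : (0 : ℝ) < 1 / ((j : ℝ) + 1) := by positivity
    have hj1 : 1 / ((j : ℝ) + 1) ≤ 1 := by
      rw [div_le_one (by positivity)]; linarith [(Nat.cast_nonneg j : (0 : ℝ) ≤ j)]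
    have := hC (x := 1 + 1 / ((j : ℝ) + 1)) ⟨by linarith, by linarith⟩
    simp only [F]
    rw [tsum_mul_left]
    rw [add_sub_cancel_left] at this
    have h2 := mul_le_mul_of_nonneg_left this hj.le
    have h3 : 1 / ((j : ℝ) + 1) * ((k.totient : ℝ)⁻¹ / (1 / ((j : ℝ) + 1)) - C) =
        (k.totient : ℝ)⁻¹ - C * (1 / ((j : ℝ) + 1)) := by
      field_simp
    linarith
  have hT2 : Tendsto (fun j : ℕ => (k.totient : ℝ)⁻¹ - C * (1 / ((j : ℝ) + 1))) atTop
      (𝓝 ((k.totient : ℝ)⁻¹ - C * 0)) :=
    tendsto_const_nhds.sub (tendsto_one_div_add_atTop_nhds_zero_nat.const_mul C)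
  have := le_of_tendsto_of_tendsto' hT2 hT hlow
  have hq : 0 < (k.totient : ℝ)⁻¹ := inv_pos.mpr (mod_cast k.totient.pos_of_neZero)
  linarith

end Pool.Agent.P.MP_28ad2c_co
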