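import Mathlib

namespace Pool.Agent.P.MP_28ad2c_co.Gap

open Finset

variable {G : Type*} [AddCommGroup G] [Fintype G] [DecidableEq G]

/-- Sidon property. -/
def Sid (A : Finset G) : Prop :=
  ∀ a ∈ A, ∀ b ∈ A, ∀ c ∈ A, ∀ d ∈ A, a + b = c + d → (a = c ∧ b = d) ∨ (a = d ∧ b = c)

/-- nonzero differences -/
def DD (A : Finset G) : Finset G := A.offDiag.image fun p => p.1 - p.2

/-- nonzero non-differences -/
def LL (A : Finset G) : Finset G := univ \ insert 0 (DD A)

/-- block of `x` -/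
def SS (A : Finset G) (x : G) : Finset G := A.filter fun a => a + a - x ∈ A

def gg (A : Finset G) (x : G) : ℕ := (SS A x).card

def ff (A : Finset G) (x : G) : ℕ := (A.filter fun b => x - b ∈ LL A).card

variable {A : Finset G}

omit [Fintype G] [DecidableEq G] in
lemma Sid.diff (h : Sid A) {a b c d : G} (ha : a ∈ A) (hb : b ∈ A) (hc : c ∈ A) (hd : d ∈ A)
    (hab : a ≠ b) (e : a - b = c - d) : a = c ∧ b = d := by
  have : a + d = c + b := by linear_combination (norm := abel1) e
  rcases h a ha d hd c hc b hb this with ⟨h1, h2⟩ | ⟨h1, -⟩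
  · exact ⟨h1, h2.symm⟩
  · exact absurd h1 hab

omit [Fintype G] [DecidableEq G] in
lemma Sid.dbl (h : Sid A) {a b : G} (ha : a ∈ A) (hb : b ∈ A) (e : a + a = b + b) : a = b := by
  rcases h a ha a ha b hb b hb e with ⟨h1, -⟩ | ⟨h1, -⟩ <;> exact h1

omit [Fintype G] in
lemma mem_DD {x : G} : x ∈ DD A ↔ ∃ a ∈ A, ∃ b ∈ A, a ≠ b ∧ a - b = x := by
  simp only [DD, mem_image, mem_offDiag, Prod.exists]
  constructor
  · rintro ⟨a, b, ⟨ha, hb, hab⟩, e⟩
    exact ⟨a, ha, b, hb, hab, e⟩
  · rintro ⟨a, ha, b, hb, hab, e⟩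
    exact ⟨a, b, ⟨ha, hb, hab⟩, e⟩

lemma mem_LL {x : G} : x ∈ LL A ↔ x ≠ 0 ∧ x ∉ DD A := by
  simp [LL, not_or]

omit [Fintype G] in
lemma zero_notMem_DD : (0 : G) ∉ DD A := by
  rw [mem_DD]
  rintro ⟨a, -, b, -, hab, e⟩
  exact hab (sub_eq_zero.mp e)

omit [Fintype G] in
lemma card_DD (h : Sid A) : (DD A).card = A.card * A.card - A.card := by
  rw [DD, card_image_of_injOn, offDiag_card]
  rintro ⟨a, b⟩ hp ⟨c, d⟩ hq e
  simp only [coe_offDiag, Set.mem_offDiag, mem_coe] at hp hq
  obtain ⟨h1, h2⟩ := h.diff hp.1 hp.2.1 hq.1 hq.2.1 hp.2.2 e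
  exact Prod.ext h1 h2

lemma card_LL (h : Sid A) :
    (LL A).card + A.card * A.card + 1 = Fintype.card G + A.card := by
  have h1 : (insert 0 (DD A)).card = A.card * A.card - A.card + 1 := by
    rw [card_insert_of_notMem zero_notMem_DD, card_DD h]
  have h2 := card_sdiff_add_card_eq_card (subset_univ (insert 0 (DD A)))
  rw [h1, card_univ] at h2
  have h3 : A.card ≤ A.card * A.card := Nat.le_mul_self _
  unfold LL
  omega

lemma sum_gg : ∑ x, gg A x = A.card * A.card := by
  simp only [gg, SS, card_filter]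
  rw [sum_comm, sum_congr rfl (g := fun _ => A.card), sum_const, smul_eq_mul]
  intro a _
  rw [← card_filter]
  refine card_bij (fun x _ => a + a - x) (fun x hx => (mem_filter.mp hx).2)
    (fun x _ y _ e => by simpa using e) (fun c hc => ⟨a + a - c, by simpa using hc, by simp⟩)

lemma sum_ff : ∑ x, ff A x = A.card * (LL A).card := by
  simp only [ff, card_filter]
  rw [sum_comm, sum_congr rfl (g := fun _ => (LL A).card), sum_const, smul_eq_mul]
  intro b _
  rw [← card_filter]
  refine card_bij (fun x _ => x - b) (fun x hx => (mem_filter.mp hx).2)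
    (fun x _ y _ e => by simpa using e) (fun c hc => ⟨c + b, by simpa using hc, by simp⟩)

omit [Fintype G] in
lemma gg_mem (h : Sid A) {x : G} (hx : x ∈ A) : gg A x = 1 := by
  rw [gg, card_eq_one]
  refine ⟨x, ?_⟩
  ext a
  simp only [SS, mem_filter, mem_singleton]
  constructor
  · rintro ⟨ha, hc⟩
    rcases h a ha a ha x hx _ hc (by abel) with ⟨h1, -⟩ | ⟨-, h1⟩ <;> exact h1
  · rintro rfl
    exact ⟨hx, by simpa using hx⟩

lemma ff_mem {x : G} (hx : x ∈ A) : ff A x = 0 := by
  rw [ff, card_eq_zero, filter_eq_empty_iff]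
  intro b hb hL
  rw [mem_LL] at hL
  exact hL.2 (mem_DD.mpr ⟨x, hx, b, hb, fun e => hL.1 (by rw [e, sub_self]), rfl⟩)

/-- The parity relation. -/
lemma parity (h : Sid A) {x : G} (hx : x ∉ A) : (gg A x + ff A x + A.card) % 2 = 0 := by
  set P : Finset (G × G) := (A ×ˢ A).filter fun p => p.1 + p.2 - x ∈ A with hP
  have h1 : P.card + ff A x = A.card := by
    have e : P.card = (A.filter fun b => ¬ (x - b ∈ LL A)).card := by
      refine card_bij (fun p _ => p.1) ?_ ?_ ?_
      · rintro ⟨b, b'⟩ hp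
        simp only [hP, mem_filter, mem_product] at hp
        refine mem_filter.mpr ⟨hp.1.1, fun hL => (mem_LL.mp hL).2 ?_⟩
        refine mem_DD.mpr ⟨b', hp.1.2, _, hp.2, fun e => hx ?_, by simp only; abel⟩
        have : x = b := by linear_combination (norm := abel1) e
        rw [this]; exact hp.1.1
      · rintro ⟨b, b'⟩ hp ⟨c, c'⟩ hq e
        simp only [hP, mem_filter, mem_product] at hp hq e
        subst e
        have hne : b' ≠ b + b' - x := fun e => hx (by
          have : x = b := by linear_combination (norm := abel1) e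
          rw [this]; exact hp.1.1)
        exact Prod.ext rfl (h.diff hp.1.2 hp.2 hq.1.2 hq.2 hne (by abel)).1
      · intro b hb
        rw [mem_filter, mem_LL, not_and_or, not_not, not_not] at hb
        rcases hb.2 with h0 | hD
        · exact absurd (by rw [sub_eq_zero.mp h0]; exact hb.1) hx
        · obtain ⟨a, ha, c, hc, -, e⟩ := mem_DD.mp hD
          refine ⟨(b, a), ?_, rfl⟩
          simp only [hP, mem_filter, mem_product]
          refine ⟨⟨hb.1, ha⟩, ?_⟩
          have : b + a - x = c := by linear_combination (norm := abel1) e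
          rwa [this]
    rw [e, ff, add_comm]
    exact card_filter_add_card_filter_not _
  have h2 : (P.filter fun p => p.1 = p.2).card = gg A x := by
    refine card_bij (fun p _ => p.1) ?_ ?_ ?_
    · rintro ⟨b, b'⟩ hp
      simp only [hP, mem_filter, mem_product] at hp
      obtain ⟨⟨⟨hb, -⟩, h3⟩, rfl⟩ := hp
      exact mem_filter.mpr ⟨hb, h3⟩
    · rintro ⟨b, b'⟩ hp ⟨c, c'⟩ hq e
      simp only [mem_filter] at hp hq e
      exact Prod.ext e (by rw [← hp.2, ← hq.2, e])
    · intro a ha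
      rw [SS, mem_filter] at ha
      exact ⟨(a, a), by simp [hP, ha.1, ha.2], rfl⟩
  have h3 : ((P.filter fun p => ¬ p.1 = p.2).card : ZMod 2) = 0 := by
    rw [card_eq_sum_ones, Nat.cast_sum]
    refine sum_involution (fun p _ => p.swap) (fun _ _ => by decide) ?_ ?_ (fun _ _ => rfl)
    · rintro ⟨b, b'⟩ hp _ e
      simp only [mem_filter] at hp
      exact hp.2 (congrArg Prod.snd e)
    · rintro ⟨b, b'⟩ hp
      simp only [hP, mem_filter, mem_product, Prod.swap] at hp ⊢
      exact ⟨⟨⟨hp.1.1.2, hp.1.1.1⟩, by rw [add_comm]; exact hp.1.2⟩, fun e => hp.2 e.symm⟩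
  rw [ZMod.natCast_eq_zero_iff] at h3
  have h4 := card_filter_add_card_filter_not (s := P) (fun p => p.1 = p.2)
  omega

omit [Fintype G] in
/-- two blocks share at most one point -/
lemma block_uniq (h : Sid A) {x w a a' : G} (ha : a ∈ SS A x) (ha' : a' ∈ SS A x)
    (hb : a ∈ SS A w) (hb' : a' ∈ SS A w) (hne : a ≠ a') : x = w := by
  simp only [SS, mem_filter] at ha ha' hb hb'
  have : a + a - x ≠ a' + a' - x := fun e => hne (h.dbl ha.1 ha'.1 (by simpa using e))
  have := (h.diff ha.2 ha'.2 hb.2 hb'.2 this (by abel)).1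
  simpa using this

/-- bad pairs -/
def Bad (A : Finset G) : Finset (G × G) :=
  A.offDiag.filter fun p => (p.1 - p.2) + (p.1 - p.2) ∈ LL A

lemma card_Bad (h : Sid A) (h2 : ∀ t : G, (univ.filter fun d : G => d + d = t).card ≤ 2) :
    (Bad A).card ≤ 2 * (LL A).card := by
  refine card_le_mul_card_image_of_maps_to (f := fun p : G × G => (p.1 - p.2) + (p.1 - p.2))
    (fun p hp => (mem_filter.mp hp).2) 2 fun t _ => le_trans ?_ (h2 t)
  refine card_le_card_of_injOn (fun p => p.1 - p.2) ?_ ?_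
  · intro p hp
    simp only [coe_filter, Set.mem_ofPred_eq, mem_univ, true_and] at hp ⊢
    exact hp.2
  · rintro ⟨a, b⟩ hp ⟨c, d⟩ hq e
    simp only [Bad, coe_filter, Set.mem_ofPred_eq, mem_filter, mem_offDiag] at hp hq
    obtain ⟨h1, h2⟩ := h.diff hp.1.1.1 hp.1.1.2.1 hq.1.1.1 hq.1.1.2.1 hp.1.1.2.2 e
    exact Prod.ext h1 h2

lemma good_block (h : Sid A) {a a' : G} (ha : a ∈ A) (ha' : a' ∈ A) (hne : a ≠ a')
    (hb : (a, a') ∉ Bad A) : ∃ x, a ∈ SS A x ∧ a' ∈ SS A x := by
  have h0 : (a - a') + (a - a') ≠ 0 := fun e =>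
    hne (h.dbl ha ha' (by linear_combination (norm := abel1) e))
  have hD : (a - a') + (a - a') ∈ DD A := by
    by_contra hD
    exact hb (mem_filter.mpr ⟨mem_offDiag.mpr ⟨ha, ha', hne⟩, mem_LL.mpr ⟨h0, hD⟩⟩)
  obtain ⟨c, hc, c', hc', -, e⟩ := mem_DD.mp hD
  refine ⟨a + a - c, mem_filter.mpr ⟨ha, by simpa using hc⟩, mem_filter.mpr ⟨ha', ?_⟩⟩
  have : a' + a' - (a + a - c) = c' := by linear_combination (norm := abel1) e
  rwa [this]

end Pool.Agent.P.MP_28ad2c_co.Gap
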