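import Pool.Agent.P.MP_28ad2c_co.Gap1

namespace Pool.Agent.P.MP_28ad2c_co.Gap

open Finset

variable {G : Type*} [AddCommGroup G] [Fintype G] [DecidableEq G] {A : Finset G}

/-- excess -/
def yy (A : Finset G) (x : G) : ℤ := (gg A x : ℤ) + ff A x - 1

lemma yy_nonneg (h : Sid A) (hm : A.card % 2 = 1) (x : G) : 0 ≤ yy A x := by
  unfold yy
  by_cases hx : x ∈ A
  · rw [gg_mem h hx, ff_mem hx]; simp
  · have := parity h hx
    omega

lemma gg_le_yy (x : G) : (gg A x : ℤ) - 1 ≤ yy A x := by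
  unfold yy; omega

lemma sum_yy (h : Sid A) : ∑ x, yy A x = ((A.card : ℤ) - 1) * ((LL A).card + 1) := by
  have h1 : ∑ x, (gg A x : ℤ) = A.card * A.card := by exact_mod_cast sum_gg (A := A)
  have h2 : ∑ x, (ff A x : ℤ) = A.card * (LL A).card := by exact_mod_cast sum_ff (A := A)
  have h3 : ((LL A).card : ℤ) + A.card * A.card + 1 = Fintype.card G + A.card := by
    exact_mod_cast card_LL h
  simp only [yy, sum_sub_distrib, sum_add_distrib, h1, h2, sum_const, card_univ, nsmul_eq_mul,
    mul_one]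
  linear_combination h3

lemma ineq_one (h : Sid A) :
    (A.card : ℤ) * A.card - A.card ≤ (Bad A).card + ∑ x, (gg A x : ℤ) * (gg A x - 1) := by
  have hs : A.offDiag ⊆ Bad A ∪ univ.biUnion fun x => (SS A x).offDiag := by
    rintro ⟨a, a'⟩ hp
    rw [mem_offDiag] at hp
    rw [mem_union]
    by_cases hb : (a, a') ∈ Bad A
    · exact Or.inl hb
    · obtain ⟨x, h1, h2⟩ := good_block h hp.1 hp.2.1 hp.2.2 hb
      exact Or.inr (mem_biUnion.mpr ⟨x, mem_univ _, mem_offDiag.mpr ⟨h1, h2, hp.2.2⟩⟩)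
  have h1 := (card_le_card hs).trans ((card_union_le _ _).trans
    (Nat.add_le_add_left card_biUnion_le _))
  rw [offDiag_card] at h1
  have h2 : ((A.card * A.card - A.card : ℕ) : ℤ) = A.card * A.card - A.card := by
    rw [Nat.cast_sub (Nat.le_mul_self _)]; simp
  have h3 : ((∑ x, (SS A x).offDiag.card : ℕ) : ℤ) = ∑ x, (gg A x : ℤ) * (gg A x - 1) := by
    rw [Nat.cast_sum]
    refine sum_congr rfl fun x _ => ?_
    rw [offDiag_card, Nat.cast_sub (Nat.le_mul_self _), gg]; push_cast; ring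
  rw [← h2, ← h3]
  exact_mod_cast h1

lemma bound_a (h : Sid A) (hm : A.card % 2 = 1) {x c : G} (hc : c ∈ A)
    (hz : ∀ a ∈ A, a + a ≠ x + c) : gg A x ≤ 2 * (LL A).card + 1 := by
  have h1 : ∑ c' ∈ A, gg A (x + c - c') ≤ A.card := by
    simp only [gg, SS, card_filter]
    rw [sum_comm]
    refine (sum_le_card_nsmul _ _ 1 fun a ha => ?_).trans (by simp)
    rw [← card_filter, card_le_one]
    intro u hu v hv
    rw [mem_filter] at hu hv
    have hne : a + a - (x + c - u) ≠ u := fun e =>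
      hz a ha (by linear_combination (norm := abel1) e)
    exact (h.diff hu.2 hu.1 hv.2 hv.1 hne (by abel)).2
  have h2 : ∑ c' ∈ A, ff A (x + c - c') ≤ 2 * (LL A).card := by
    have e : ∑ c' ∈ A, ff A (x + c - c') =
        ((A ×ˢ A).filter fun p : G × G => x + c - p.1 - p.2 ∈ LL A).card := by
      rw [card_filter, sum_product]
      simp only [ff, card_filter]
    rw [e]
    refine card_le_mul_card_image_of_maps_to (f := fun p : G × G => x + c - p.1 - p.2)
      (fun p hp => (mem_filter.mp hp).2) 2 fun t _ => ?_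
    by_cases hE : (filter (fun p : G × G => x + c - p.1 - p.2 = t)
        ((A ×ˢ A).filter fun p : G × G => x + c - p.1 - p.2 ∈ LL A)) = ∅
    · rw [hE]; simp
    · obtain ⟨⟨u, v⟩, huv⟩ := nonempty_iff_ne_empty.mpr hE
      refine le_trans (card_le_card (t := {(u, v), (v, u)}) ?_) card_le_two
      rintro ⟨u', v'⟩ hq
      simp only [mem_filter, mem_product] at huv hq
      have : u' + v' = u + v := by linear_combination (norm := abel1) huv.2 - hq.2
      rcases h u' hq.1.1.1 v' hq.1.1.2 u huv.1.1.1 v huv.1.1.2 this with ⟨rfl, rfl⟩ | ⟨rfl, rfl⟩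
      · simp
      · simp
  have h3 : ∑ c' ∈ A, yy A (x + c - c') ≤ 2 * (LL A).card := by
    simp only [yy, sum_sub_distrib, sum_add_distrib, sum_const, nsmul_eq_mul, mul_one]
    have h1' : ∑ c' ∈ A, (gg A (x + c - c') : ℤ) ≤ A.card := by exact_mod_cast h1
    have h2' : ∑ c' ∈ A, (ff A (x + c - c') : ℤ) ≤ 2 * (LL A).card := by exact_mod_cast h2
    linarith
  have h4 := single_le_sum (f := fun c' => yy A (x + c - c'))
    (fun c' _ => yy_nonneg h hm _) hc
  simp only [add_sub_cancel_right] at h4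
  have h5 := gg_le_yy (A := A) x
  omega

lemma sum_ff_ff (h : Sid A) :
    ∑ w, (ff A w * ff A w - ff A w) ≤ (LL A).card * (LL A).card - (LL A).card := by
  have e : ∑ w, (ff A w * ff A w - ff A w) =
      ((univ : Finset G).sigma fun w => (A.filter fun b => w - b ∈ LL A).offDiag).card := by
    rw [card_sigma]
    exact sum_congr rfl fun w _ => by rw [offDiag_card, ff]
  rw [e, ← offDiag_card]
  refine card_le_card_of_injOn (fun p => (p.1 - p.2.1, p.1 - p.2.2)) ?_ ?_
  · rintro ⟨w, b, b'⟩ hp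
    simp only [coe_sigma, Set.mem_sigma_iff, mem_coe, mem_offDiag, mem_filter] at hp ⊢
    exact ⟨hp.2.1.2, hp.2.2.1.2, fun e => hp.2.2.2 (by simpa using e)⟩
  · rintro ⟨w, b, b'⟩ hp ⟨v, c, c'⟩ hq e
    simp only [coe_sigma, Set.mem_sigma_iff, mem_coe, mem_offDiag, mem_filter] at hp hq
    simp only [Prod.mk.injEq] at e
    obtain ⟨h1, h2⟩ := h.diff hp.2.1.1 hp.2.2.1.1 hq.2.1.1 hq.2.2.1.1 hp.2.2.2
      (by linear_combination (norm := abel1) e.2 - e.1)
    subst h1 h2
    have : w = v := by linear_combination (norm := abel1) e.1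
    subst this
    rfl

lemma giant (h : Sid A) (hm : A.card % 2 = 1) (hl : 1 ≤ (LL A).card) {x : G}
    (hx : ∀ c ∈ A, ∃ a ∈ A, a + a = x + c) : A.card ≤ (LL A).card := by
  have hS : SS A x = A := by
    refine eq_of_subset_of_card_le (filter_subset _ _) ?_
    refine card_le_card_of_surjOn (fun a => a + a - x) fun c hc => ?_
    obtain ⟨a, ha, e⟩ := hx c hc
    have : a + a - x = c := by rw [e]; abel
    exact ⟨a, mem_coe.mpr (mem_filter.mpr ⟨ha, by rw [this]; exact hc⟩), this⟩
  have hgx : gg A x = A.card := by rw [gg, hS]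
  have hg1 : ∀ w, w ≠ x → gg A w ≤ 1 := by
    intro w hw
    rw [gg, card_le_one]
    intro a ha b hb
    by_contra hab
    exact hw (block_uniq h ha hb (by rw [hS]; exact (mem_filter.mp ha).1)
      (by rw [hS]; exact (mem_filter.mp hb).1) hab)
  -- termwise: f w ≤ (1 - g w)_{w ≠ x} + f (f - 1)
  have key : ∀ w, (ff A w : ℤ) ≤ (1 - gg A w + if w = x then (A.card : ℤ) - 1 else 0) +
      ((ff A w * ff A w - ff A w : ℕ) : ℤ) := by
    intro w
    rw [Nat.cast_sub (Nat.le_mul_self _)]
    push_cast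
    have hf : ff A w = 0 ∨ ff A w = 1 ∨ 2 ≤ ff A w := by omega
    have hw1 : ff A w = 1 → gg A w % 2 = 0 := by
      intro e
      have hw : w ∉ A := fun hw => by rw [ff_mem hw] at e; omega
      have := parity h hw
      omega
    split_ifs with hw
    · subst hw
      rw [hgx] at hw1 ⊢
      rcases hf with e | e | e
      · rw [e]; simp
      · have := hw1 e; omega
      · have : (2 : ℤ) ≤ ff A w := by exact_mod_cast e
        nlinarith
    · have := hg1 w hw
      rcases hf with e | e | e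
      · rw [e]; simp; omega
      · have := hw1 e; rw [e]; simp; omega
      · have : (2 : ℤ) ≤ ff A w := by exact_mod_cast e
        have : (gg A w : ℤ) ≤ 1 := by exact_mod_cast hg1 w hw
        nlinarith
  have hsum := sum_le_sum (s := univ) fun w _ => key w
  have h1 : ∑ x, (gg A x : ℤ) = A.card * A.card := by exact_mod_cast sum_gg (A := A)
  have h2 : ∑ x, (ff A x : ℤ) = A.card * (LL A).card := by exact_mod_cast sum_ff (A := A)
  have h3 : ((LL A).card : ℤ) + A.card * A.card + 1 = Fintype.card G + A.card := by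
    exact_mod_cast card_LL h
  have h4 : ∑ w, ((ff A w * ff A w - ff A w : ℕ) : ℤ) ≤
      ((LL A).card : ℤ) * (LL A).card - (LL A).card := by
    have := sum_ff_ff h
    rw [← Nat.cast_sum]
    have e : ((LL A).card : ℤ) * (LL A).card - (LL A).card =
        (((LL A).card * (LL A).card - (LL A).card : ℕ) : ℤ) := by
      rw [Nat.cast_sub (Nat.le_mul_self _)]; simp
    rw [e]
    exact_mod_cast this
  simp only [sum_add_distrib, sum_sub_distrib, sum_ite_eq', mem_univ, if_true, sum_const,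
    card_univ, nsmul_eq_mul, mul_one, h1, h2] at hsum
  have h5 : (A.card : ℤ) * (LL A).card ≤ (LL A).card * (LL A).card := by linarith
  have h6 : (0 : ℤ) < (LL A).card := by exact_mod_cast hl
  exact_mod_cast le_of_mul_le_mul_right h5 h6

lemma ineq_two (h : Sid A) (hm : A.card % 2 = 1) (x : G) :
    (gg A x : ℤ) * (A.card - gg A x) ≤ (Bad A).card + ∑ w ∈ univ.erase x, yy A w := by
  have hs : SS A x ×ˢ (A \ SS A x) ⊆ Bad A ∪ (univ.erase x).biUnion
      fun w => (SS A w ∩ SS A x) ×ˢ (SS A w \ SS A x) := by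
    rintro ⟨a, a'⟩ hp
    simp only [mem_product, mem_sdiff] at hp
    rw [mem_union]
    by_cases hb : (a, a') ∈ Bad A
    · exact Or.inl hb
    · have hne : a ≠ a' := fun e => hp.2.2 (e ▸ hp.1)
      obtain ⟨w, h1, h2⟩ := good_block h (mem_filter.mp hp.1).1 hp.2.1 hne hb
      refine Or.inr (mem_biUnion.mpr ⟨w, ?_, ?_⟩)
      · exact mem_erase.mpr ⟨fun e => hp.2.2 (e ▸ h2), mem_univ _⟩
      · simp only [mem_product, mem_inter, mem_sdiff]
        exact ⟨⟨h1, hp.1⟩, h2, hp.2.2⟩
  have h1 := (card_le_card hs).trans ((card_union_le _ _).trans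
    (Nat.add_le_add_left card_biUnion_le _))
  have hsub : SS A x ⊆ A := filter_subset _ _
  rw [card_product, card_sdiff_of_subset hsub] at h1
  have h2 : (((SS A x).card * (A.card - (SS A x).card) : ℕ) : ℤ) =
      (gg A x : ℤ) * (A.card - gg A x) := by
    rw [Nat.cast_mul, Nat.cast_sub (card_le_card hsub), gg]
  have h3 : ((∑ w ∈ univ.erase x, ((SS A w ∩ SS A x) ×ˢ (SS A w \ SS A x)).card : ℕ) : ℤ) ≤
      ∑ w ∈ univ.erase x, yy A w := by
    rw [Nat.cast_sum]
    refine sum_le_sum fun w hw => ?_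
    have hi : (SS A w ∩ SS A x).card ≤ 1 := by
      rw [card_le_one]
      intro a ha b hb
      by_contra hab
      rw [mem_inter] at ha hb
      exact (mem_erase.mp hw).1 (block_uniq h ha.1 hb.1 ha.2 hb.2 hab)
    have hc := card_sdiff_add_card_inter (SS A w) (SS A x)
    have h0 := yy_nonneg h hm w
    have h1 := gg_le_yy (A := A) w
    rw [card_product]
    rw [gg] at h1
    rcases Nat.le_one_iff_eq_zero_or_eq_one.mp hi with e | e
    · rw [e]; simpa using h0
    · rw [e] at hc ⊢; omega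
  rw [← h2]
  have h1' : (((SS A x).card * (A.card - (SS A x).card) : ℕ) : ℤ) ≤ (Bad A).card +
      ((∑ w ∈ univ.erase x, ((SS A w ∩ SS A x) ×ˢ (SS A w \ SS A x)).card : ℕ) : ℤ) := by
    exact_mod_cast h1
  linarith

theorem odd_case (h : Sid A) (h2 : ∀ t : G, (univ.filter fun d : G => d + d = t).card ≤ 2)
    (hm : A.card % 2 = 1) (hl : 1 ≤ (LL A).card) :
    A.card ≤ ((LL A).card + 1) * ((LL A).card + 2) := by
  by_contra hc
  push Not at hc
  obtain ⟨x, -, hx⟩ := exists_max_image univ (gg A) univ_nonempty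
  have hk : gg A x ≤ 2 * (LL A).card + 1 := by
    by_cases hg : ∀ c ∈ A, ∃ a ∈ A, a + a = x + c
    · have := giant h hm hl hg
      nlinarith
    · push Not at hg
      obtain ⟨c, hc, hz⟩ := hg
      exact bound_a h hm hc hz
  have hB : ((Bad A).card : ℤ) ≤ 2 * (LL A).card := by exact_mod_cast card_Bad h h2
  have hI := ineq_one h
  have hI2 : ∑ w, (gg A w : ℤ) * (gg A w - 1) ≤ ∑ w, (gg A x : ℤ) * yy A w := by
    refine sum_le_sum fun w _ => ?_
    have h1 : (gg A w : ℤ) ≤ gg A x := by exact_mod_cast hx w (mem_univ _)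
    have h0 := yy_nonneg h hm w
    have h3 := gg_le_yy (A := A) w
    have h4 : (0 : ℤ) ≤ gg A w := Nat.cast_nonneg _
    nlinarith
  rw [← mul_sum, sum_yy h] at hI2
  have hII := ineq_two h hm x
  have hE := add_sum_erase univ (yy A) (mem_univ x)
  rw [sum_yy h] at hE
  have hy := gg_le_yy (A := A) x
  have hc' : (((LL A).card : ℤ) + 1) * ((LL A).card + 2) + 1 ≤ A.card := by exact_mod_cast hc
  have hk' : (gg A x : ℤ) ≤ 2 * (LL A).card + 1 := by exact_mod_cast hk
  have hl' : (1 : ℤ) ≤ (LL A).card := by exact_mod_cast hl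
  generalize (A.card : ℤ) = m at *
  generalize ((LL A).card : ℤ) = l at *
  generalize (gg A x : ℤ) = k at *
  have hm1 : 0 < m - 1 := by nlinarith
  have hk3 : l + 3 ≤ k := by
    by_contra hk3
    have h5 : k ≤ l + 2 := by omega
    have h6 : k * ((m - 1) * (l + 1)) ≤ (l + 2) * ((m - 1) * (l + 1)) :=
      mul_le_mul_of_nonneg_right h5 (by positivity)
    have h7 : (m - 1) * ((l + 1) * (l + 2)) ≤ (m - 1) * (m - 1) :=
      mul_le_mul_of_nonneg_left (by linarith) hm1.le
    nlinarith
  have h8 : 0 ≤ (k - l - 3) * (m - l - 2 - k) :=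
    mul_nonneg (by linarith) (by nlinarith)
  nlinarith

end Pool.Agent.P.MP_28ad2c_co.Gap
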