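import Pool.Agent.P.MP_28ad2c_co.Gap1

namespace Pool.Agent.P.MP_28ad2c_co.Gap

open Finset

variable {G : Type*} [AddCommGroup G] [Fintype G] [DecidableEq G] {A : Finset G}

lemma z2_add_self (u : ZMod 2) : u + u = 0 := by revert u; decide

lemma sum_gg_cls (χ : G →+ ZMod 2) (i : ZMod 2) :
    ∑ x ∈ univ.filter (fun x => χ x = i), gg A x =
      A.card * (A.filter fun a => χ a = i).card := by
  simp only [gg, SS]
  simp only [card_filter (s := A) (p := fun a => a + a - _ ∈ A)]
  rw [sum_comm, sum_congr rfl (g := fun _ => (A.filter fun a => χ a = i).card), sum_const,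
    smul_eq_mul]
  intro a _
  rw [← card_filter]
  refine card_bij (fun x _ => a + a - x) ?_ (fun x _ y _ e => by simpa using e) ?_
  · intro x hx
    simp only [mem_filter, mem_univ, true_and] at hx ⊢
    refine ⟨hx.2, ?_⟩
    rw [map_sub, map_add, z2_add_self, hx.1, zero_sub, ZMod.neg_eq_self_mod_two]
  · intro c hc
    simp only [mem_filter, mem_univ, true_and] at hc ⊢
    refine ⟨a + a - c, ⟨?_, by simpa using hc.1⟩, by simp⟩
    rw [map_sub, map_add, z2_add_self, hc.2, zero_sub, ZMod.neg_eq_self_mod_two]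

lemma sum_gg_gg_cls (h : Sid A) (h2 : ∀ t : G, (univ.filter fun d : G => d + d = t).card ≤ 2)
    (χ : G →+ ZMod 2) (i : ZMod 2) :
    ∑ x ∈ univ.filter (fun x => χ x = i), (gg A x * gg A x - gg A x) ≤
      2 * ((A.filter fun a => χ a = i).card * (A.filter fun a => χ a = i).card -
        (A.filter fun a => χ a = i).card) := by
  have e : ∑ x ∈ univ.filter (fun x => χ x = i), (gg A x * gg A x - gg A x) =
      ((univ.filter (fun x => χ x = i)).sigma fun x => (SS A x).offDiag).card := by
    rw [card_sigma]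
    exact sum_congr rfl fun w _ => by rw [offDiag_card, gg]
  rw [e, ← offDiag_card]
  refine card_le_mul_card_image_of_maps_to
    (f := fun p : (_ : G) × (G × G) => (p.2.1 + p.2.1 - p.1, p.2.2 + p.2.2 - p.1)) ?_ 2 ?_
  · rintro ⟨x, a, a'⟩ hp
    simp only [mem_sigma, mem_offDiag, mem_filter, SS, mem_univ, true_and] at hp ⊢
    refine ⟨⟨hp.2.1.2, ?_⟩, ⟨hp.2.2.1.2, ?_⟩, fun e => hp.2.2.2 ?_⟩
    · rw [map_sub, map_add, z2_add_self, hp.1, zero_sub, ZMod.neg_eq_self_mod_two]
    · rw [map_sub, map_add, z2_add_self, hp.1, zero_sub, ZMod.neg_eq_self_mod_two]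
    · exact h.dbl hp.2.1.1 hp.2.2.1.1 (by simpa using e)
  · rintro ⟨c, c'⟩ _
    refine le_trans ?_ (h2 (c - c'))
    refine card_le_card_of_injOn (fun p => p.2.1 - p.2.2) ?_ ?_
    · rintro ⟨x, a, a'⟩ hp
      simp only [coe_filter, Set.mem_ofPred_eq, mem_univ, true_and, Prod.mk.injEq] at hp ⊢
      linear_combination (norm := abel1) hp.2.1 - hp.2.2
    · rintro ⟨x, a, a'⟩ hp ⟨w, b, b'⟩ hq e
      simp only [coe_filter, Set.mem_ofPred_eq, mem_univ, true_and, Prod.mk.injEq, mem_sigma,
        mem_offDiag, mem_filter, SS] at hp hq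
      obtain ⟨h1, h3⟩ := h.diff hp.1.2.1.1 hp.1.2.2.1.1 hq.1.2.1.1 hq.1.2.2.1.1 hp.1.2.2.2 e
      subst h1 h3
      have : x = w := by linear_combination (norm := abel1) hq.2.1 - hp.2.1
      subst this
      rfl

lemma sum_ff_cls (χ : G →+ ZMod 2) (i : ZMod 2) :
    ∑ x ∈ univ.filter (fun x => χ x = i), ff A x =
      (A.filter fun a => χ a = i).card * ((LL A).filter fun t => χ t = 0).card +
      (A.filter fun a => ¬ χ a = i).card * ((LL A).filter fun t => ¬ χ t = 0).card := by
  simp only [ff]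
  simp only [card_filter (s := A) (p := fun b => _ - b ∈ LL A)]
  rw [sum_comm, ← sum_filter_add_sum_filter_not A (fun a => χ a = i)]
  congr 1
  · rw [sum_congr rfl (g := fun _ => ((LL A).filter fun t => χ t = 0).card), sum_const,
      smul_eq_mul]
    intro b hb
    rw [← card_filter]
    rw [mem_filter] at hb
    refine card_bij (fun x _ => x - b) ?_ (fun x _ y _ e => by simpa using e) ?_
    · intro x hx
      simp only [mem_filter, mem_univ, true_and] at hx ⊢
      exact ⟨hx.2, by rw [map_sub, hx.1, hb.2, sub_self]⟩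
    · intro c hc
      simp only [mem_filter, mem_univ, true_and] at hc ⊢
      exact ⟨c + b, ⟨by rw [map_add, hc.2, hb.2, zero_add], by simpa using hc.1⟩, by simp⟩
  · rw [sum_congr rfl (g := fun _ => ((LL A).filter fun t => ¬ χ t = 0).card), sum_const,
      smul_eq_mul]
    intro b hb
    rw [← card_filter]
    rw [mem_filter] at hb
    refine card_bij (fun x _ => x - b) ?_ (fun x _ y _ e => by simpa using e) ?_
    · intro x hx
      simp only [mem_filter, mem_univ, true_and] at hx ⊢
      refine ⟨hx.2, fun e => hb.2 ?_⟩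
      rw [map_sub, sub_eq_zero] at e
      rw [← e, hx.1]
    · intro c hc
      simp only [mem_filter, mem_univ, true_and] at hc ⊢
      refine ⟨c + b, ⟨?_, by simpa using hc.1⟩, by simp⟩
      rw [map_add]
      exact (by decide : ∀ u v j : ZMod 2, ¬ u = 0 → ¬ v = j → u + v = j) _ _ _ hc.2 hb.2

lemma odd_count (h : Sid A) (χ : G →+ ZMod 2) (i : ZMod 2) :
    (univ.filter fun x => ¬ χ x = 0).card =
      2 * ((A.filter fun a => χ a = i).card * (A.filter fun a => ¬ χ a = i).card) +
        ((LL A).filter fun t => ¬ χ t = 0).card := by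
  have e1 : (univ.filter fun x => ¬ χ x = 0) =
      ((DD A).filter fun x => ¬ χ x = 0) ∪ ((LL A).filter fun x => ¬ χ x = 0) := by
    ext x
    simp only [mem_filter, mem_univ, true_and, mem_union, mem_LL]
    constructor
    · intro hx
      by_cases hD : x ∈ DD A
      · exact Or.inl ⟨hD, hx⟩
      · exact Or.inr ⟨⟨fun e => hx (by rw [e, map_zero]), hD⟩, hx⟩
    · rintro (hx | hx) <;> exact hx.2
  have e2 : Disjoint ((DD A).filter fun x => ¬ χ x = 0) ((LL A).filter fun x => ¬ χ x = 0) := by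
    rw [disjoint_left]
    intro x hx hy
    exact (mem_LL.mp (mem_filter.mp hy).1).2 (mem_filter.mp hx).1
  rw [e1, card_union_of_disjoint e2]
  congr 1
  set P := A.filter fun a => χ a = i with hP
  set Q := A.filter fun a => ¬ χ a = i with hQ
  have e3 : Disjoint (P ×ˢ Q) (Q ×ˢ P) := by
    rw [disjoint_left]
    rintro ⟨a, b⟩ hx hy
    simp only [hP, hQ, mem_product, mem_filter] at hx hy
    exact hy.1.2 hx.1.2
  have e4 : (P ×ˢ Q ∪ Q ×ˢ P).card = 2 * (P.card * Q.card) := by
    rw [card_union_of_disjoint e3, card_product, card_product]; ring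
  rw [← e4]
  symm
  have hz : ∀ u v j : ZMod 2, (u = j ∧ ¬ v = j ∨ ¬ u = j ∧ v = j) ↔ ¬ u - v = 0 := by decide
  have hmem : ∀ a b, (a, b) ∈ P ×ˢ Q ∪ Q ×ˢ P ↔ a ∈ A ∧ b ∈ A ∧ ¬ χ (a - b) = 0 := by
    intro a b
    simp only [hP, hQ, mem_union, mem_product, mem_filter, map_sub, ← hz _ _ i]
    tauto
  refine card_bij (fun p _ => p.1 - p.2) ?_ ?_ ?_
  · rintro ⟨a, b⟩ hp
    rw [hmem] at hp
    refine mem_filter.mpr ⟨mem_DD.mpr ⟨a, hp.1, b, hp.2.1, fun e => hp.2.2 ?_, rfl⟩, hp.2.2⟩
    rw [e, sub_self, map_zero]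
  · rintro ⟨a, b⟩ hp ⟨c, d⟩ hq e
    rw [hmem] at hp hq
    obtain ⟨h1, h3⟩ := h.diff hp.1 hp.2.1 hq.1 hq.2.1
      (fun e => hp.2.2 (by rw [e, sub_self, map_zero])) e
    exact Prod.ext h1 h3
  · intro x hx
    rw [mem_filter] at hx
    obtain ⟨a, ha, b, hb, -, e⟩ := mem_DD.mp hx.1
    exact ⟨(a, b), (hmem a b).mpr ⟨ha, hb, by rw [e]; exact hx.2⟩, e⟩

lemma cls_ineq (h : Sid A) (h2 : ∀ t : G, (univ.filter fun d : G => d + d = t).card ≤ 2)
    (hm : A.card % 2 = 0) (χ : G →+ ZMod 2) (i : ZMod 2) :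
    (A.card : ℤ) * (A.filter fun a => χ a = i).card ≤
      2 * ((A.filter fun a => χ a = i).card * (A.filter fun a => χ a = i).card -
        (A.filter fun a => χ a = i).card) + (A.filter fun a => χ a = i).card +
      ((A.filter fun a => χ a = i).card * ((LL A).filter fun t => χ t = 0).card +
      (A.filter fun a => ¬ χ a = i).card * ((LL A).filter fun t => ¬ χ t = 0).card) := by
  have key : ∀ x, (gg A x : ℤ) ≤ ((gg A x * gg A x - gg A x : ℕ) : ℤ) +
      (if x ∈ A then 1 else 0) + ff A x := by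
    intro x
    rw [Nat.cast_sub (Nat.le_mul_self _)]
    push_cast
    split_ifs with hx
    · rw [gg_mem h hx, ff_mem hx]; simp
    · have hp := parity h hx
      have hf : gg A x = 0 ∨ gg A x = 1 ∨ 2 ≤ gg A x := by omega
      have h0 : (0 : ℤ) ≤ ff A x := Nat.cast_nonneg _
      rcases hf with e | e | e
      · rw [e]; simp
      · rw [e] at hp ⊢; simp; omega
      · have : (2 : ℤ) ≤ gg A x := by exact_mod_cast e
        nlinarith
  have hsum := sum_le_sum (s := univ.filter fun x => χ x = i) fun w _ => key w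
  have h1 : ∑ x ∈ univ.filter (fun x => χ x = i), (gg A x : ℤ) =
      A.card * (A.filter fun a => χ a = i).card := by exact_mod_cast sum_gg_cls (A := A) χ i
  have h3 : ∑ x ∈ univ.filter (fun x => χ x = i), (ff A x : ℤ) =
      (A.filter fun a => χ a = i).card * ((LL A).filter fun t => χ t = 0).card +
      (A.filter fun a => ¬ χ a = i).card * ((LL A).filter fun t => ¬ χ t = 0).card := by
    exact_mod_cast sum_ff_cls (A := A) χ i
  have h4 : ∑ x ∈ univ.filter (fun x => χ x = i), ((gg A x * gg A x - gg A x : ℕ) : ℤ) ≤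
      2 * ((A.filter fun a => χ a = i).card * (A.filter fun a => χ a = i).card -
        (A.filter fun a => χ a = i).card) := by
    have := sum_gg_gg_cls h h2 χ i
    rw [← Nat.cast_sum]
    have e : (2 : ℤ) * ((A.filter fun a => χ a = i).card * (A.filter fun a => χ a = i).card -
        (A.filter fun a => χ a = i).card) = ((2 * ((A.filter fun a => χ a = i).card *
        (A.filter fun a => χ a = i).card - (A.filter fun a => χ a = i).card) : ℕ) : ℤ) := by
      rw [Nat.cast_mul, Nat.cast_sub (Nat.le_mul_self _)]; simp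
    rw [e]
    exact_mod_cast this
  have h5 : ∑ x ∈ univ.filter (fun x => χ x = i), (if x ∈ A then (1 : ℤ) else 0) =
      (A.filter fun a => χ a = i).card := by
    rw [sum_boole]
    congr 2
    ext x
    simp only [mem_filter, mem_univ, true_and]
    tauto
  rw [sum_add_distrib, sum_add_distrib, h1, h3, h5] at hsum
  linarith

theorem even_case (h : Sid A) (h2 : ∀ t : G, (univ.filter fun d : G => d + d = t).card ≤ 2)
    (hm : A.card % 2 = 0) (χ : G →+ ZMod 2)
    (hχ : 2 * (univ.filter fun x => ¬ χ x = 0).card = Fintype.card G) :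
    A.card ≤ (LL A).card ^ 2 + (LL A).card + 2 := by
  obtain ⟨i, hi⟩ : ∃ i : ZMod 2,
      (A.filter fun a => χ a = i).card ≤ (A.filter fun a => ¬ χ a = i).card := by
    by_cases h0 : (A.filter fun a => χ a = 0).card ≤ (A.filter fun a => ¬ χ a = 0).card
    · exact ⟨0, h0⟩
    · have hz : ∀ u : ZMod 2, (u = 1 ↔ ¬ u = 0) := by decide
      refine ⟨1, ?_⟩
      simp only [hz, not_not]
      omega
  have h3 := cls_ineq h h2 hm χ i
  have h4 := odd_count h χ i
  have h5 := card_LL h
  have h6 := card_filter_add_card_filter_not (s := A) (fun a => χ a = i)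
  have h7 := card_filter_add_card_filter_not (s := LL A) (fun a => χ a = 0)
  rw [h4] at hχ
  by_contra hc
  push Not at hc
  have hc' : ((LL A).card : ℤ) ^ 2 + (LL A).card + 3 ≤ A.card := by exact_mod_cast hc
  have h8 : ((LL A).card : ℤ) + A.card * A.card + 1 = 2 * (2 * ((A.filter fun a => χ a = i).card *
      (A.filter fun a => ¬ χ a = i).card) + ((LL A).filter fun t => ¬ χ t = 0).card) + A.card := by
    rw [← hχ] at h5
    exact_mod_cast h5
  have h6' : ((A.filter fun a => χ a = i).card : ℤ) + (A.filter fun a => ¬ χ a = i).card =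
      A.card := by exact_mod_cast h6
  have h7' : (((LL A).filter fun t => χ t = 0).card : ℤ) +
      ((LL A).filter fun t => ¬ χ t = 0).card = (LL A).card := by exact_mod_cast h7
  have hi' : ((A.filter fun a => χ a = i).card : ℤ) ≤ (A.filter fun a => ¬ χ a = i).card := by
    exact_mod_cast hi
  have p0 : (0 : ℤ) ≤ (A.filter fun a => χ a = i).card := Nat.cast_nonneg _
  have a0 : (0 : ℤ) ≤ ((LL A).filter fun t => χ t = 0).card := Nat.cast_nonneg _
  have b0 : (0 : ℤ) ≤ ((LL A).filter fun t => ¬ χ t = 0).card := Nat.cast_nonneg _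
  generalize ((A.filter fun a => χ a = i).card : ℤ) = p at *
  generalize ((A.filter fun a => ¬ χ a = i).card : ℤ) = q at *
  generalize (((LL A).filter fun t => χ t = 0).card : ℤ) = a at *
  generalize (((LL A).filter fun t => ¬ χ t = 0).card : ℤ) = b at *
  generalize (A.card : ℤ) = m at *
  generalize ((LL A).card : ℤ) = l at *
  obtain ⟨s, rfl⟩ : ∃ s, q = p + s := ⟨q - p, by ring⟩
  obtain rfl : a = l - b := by linarith
  obtain rfl : m = 2 * p + s := by linarith
  have s0 : 0 ≤ s := by linarith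
  have e1 : s * s = 2 * p + s - 1 - l + 2 * b := by linear_combination h8
  have e2 : p * (s + 1 - l) ≤ s * b := by linarith
  have l0 : 0 ≤ l := by linarith
  clear h3 h8 h4 h5 h6 h7 hχ hc hi
  have s1 : l + 1 ≤ s := by
    by_contra hs
    have h9 : s ≤ l := by omega
    have := mul_le_mul h9 h9 s0 l0
    linarith
  rcases s1.eq_or_lt with rfl | s2
  · have hb : b ≤ l - 1 := by
      have : 2 * b + 1 ≤ 2 * l := by linarith
      omega
    have := mul_le_mul_of_nonneg_left hb (by linarith : 0 ≤ l + 3)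
    linarith
  · have s3 : l + 2 ≤ s := by omega
    have e3 : p * 3 ≤ p * (s + 1 - l) := mul_le_mul_of_nonneg_left (by linarith) p0
    have e4 : s * b ≤ s * l := mul_le_mul_of_nonneg_left (by linarith) s0
    have e5 : s * (l + 2) ≤ s * s := mul_le_mul_of_nonneg_left s3 s0
    have e6 : 0 ≤ s * l := mul_nonneg s0 l0
    linarith

end Pool.Agent.P.MP_28ad2c_co.Gap
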