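import Pool.Agent.P.MP_28ad2c_co.Gap2
import Pool.Agent.P.MP_28ad2c_co.Gap3

namespace Pool.Agent.P.MP_28ad2c_co.Gap

open Finset

lemma halves (n : ℕ) [NeZero n] (t : ZMod n) :
    (univ.filter fun d : ZMod n => d + d = t).card ≤ 2 := by
  by_cases hE : (univ.filter fun d : ZMod n => d + d = t) = ∅
  · rw [hE]; simp
  · obtain ⟨u, hu⟩ := nonempty_iff_ne_empty.mpr hE
    have h0 := IsAddCyclic.card_nsmul_eq_zero_le (α := ZMod n) (n := 2) (by norm_num)
    refine le_trans (card_le_card_of_injOn (fun d => d - u) ?_ ?_) h0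
    · intro d hd
      simp only [coe_filter, Set.mem_ofPred_eq, mem_univ, true_and, mem_filter] at hd hu ⊢
      rw [two_nsmul]
      linear_combination hd - hu
    · intro a _ b _ e
      simpa using e

lemma half_count (n : ℕ) [NeZero n] (hn : 2 ∣ n) :
    2 * (univ.filter fun x : ZMod n =>
      ¬ (ZMod.castHom hn (ZMod 2)).toAddMonoidHom x = 0).card = Fintype.card (ZMod n) := by
  set χ := ZMod.castHom hn (ZMod 2)
  have h1 := card_filter_add_card_filter_not (s := (univ : Finset (ZMod n)))
    (fun x => χ.toAddMonoidHom x = 0)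
  have h2 : (univ.filter fun x : ZMod n => χ.toAddMonoidHom x = 0).card =
      (univ.filter fun x : ZMod n => ¬ χ.toAddMonoidHom x = 0).card := by
    have hz : ∀ u : ZMod 2, (u = 0 ↔ ¬ u + 1 = 0) := by decide
    refine card_bij (fun x _ => x + 1) ?_ (fun x _ y _ e => by simpa using e) ?_
    · intro x hx
      simp only [mem_filter, mem_univ, true_and, RingHom.toAddMonoidHom_eq_coe,
        AddMonoidHom.coe_coe, map_add, map_one] at hx ⊢
      exact (hz _).mp hx
    · intro y hy
      refine ⟨y - 1, ?_, by simp⟩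
      simp only [mem_filter, mem_univ, true_and, RingHom.toAddMonoidHom_eq_coe,
        AddMonoidHom.coe_coe, map_sub, map_one] at hy ⊢
      exact (hz _).mpr (by simpa using hy)
  rw [card_univ] at h1
  omega

end Pool.Agent.P.MP_28ad2c_co.Gap
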