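import Pool.Agent.P.MP_28ad2c_co.Three

/-! Doubling acts on the group ring like a multiplier modulo powers of two. -/

namespace Pool.Agent.P.MP_28ad2c_co.Per

open Finset Gap Three AddMonoidAlgebra

set_option linter.unusedSectionVars false

theorem key {R : Type*} [CommRing R] (φ : R →+* R) {k : ℕ} (hk : 0 < k)
    (h2 : ∀ x, (2 : R) ∣ φ x - x ^ 2) (hp : ∀ x : R, (2 : R) ∣ x ^ (k + 1) - x) (a : ℕ) :
    ∀ x, ∃ r s, φ x = x * r + 2 ^ a * s := by
  induction a with
  | zero => exact fun x => ⟨0, φ x, by simp⟩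
  | succ a ih =>
    intro x
    obtain ⟨j, rfl⟩ : ∃ j, k = j + 1 := ⟨k - 1, by omega⟩
    obtain ⟨c, hc⟩ := hp x
    have h1 : ∀ i : ℕ, (2 : R) ∣ x - x * (x ^ (j + 1)) ^ i := fun i => by
      induction i with
      | zero => simp
      | succ i ih =>
        obtain ⟨d, hd⟩ := ih
        exact ⟨d - c * (x ^ (j + 1)) ^ i, by linear_combination hd - (x ^ (j + 1)) ^ i * hc⟩
    have h3 : ((2 : ℕ) : R) ∣ φ (x ^ (j + 1)) - x ^ (j + 1) := by
      obtain ⟨d, hd⟩ := h2 (x ^ (j + 1))
      exact ⟨d + x ^ j * c, by push_cast; linear_combination hd + x ^ j * hc⟩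
    obtain ⟨s₁, hs⟩ := dvd_sub_pow_of_dvd_sub h3 a
    obtain ⟨y, hy⟩ := h1 (2 ^ a)
    obtain ⟨r, s, hr⟩ := ih y
    obtain ⟨i, hi⟩ : ∃ i, (j + 1) * 2 ^ a = i + 1 := ⟨(j + 1) * 2 ^ a - 1, by
      have : 0 < (j + 1) * 2 ^ a := by positivity
      omega⟩
    have e := congrArg φ hy
    rw [map_sub, map_mul, map_mul, map_ofNat, map_pow] at e
    rw [← pow_mul, hi] at hy
    rw [← pow_mul x, hi] at hs
    push_cast at hs
    refine ⟨x ^ i * φ x + (1 - x ^ (i + 1)) * r, s₁ * φ x + s, ?_⟩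
    linear_combination e + φ x * hs + 2 * hr - r * hy

variable {G : Type*} [AddCommGroup G] [Fintype G] [DecidableEq G]

/-- doubling -/
noncomputable def db (G : Type*) [AddCommGroup G] : AddMonoidAlgebra ℤ G →+* AddMonoidAlgebra ℤ G :=
  mapDomainRingHom ℤ (nsmulAddMonoidHom 2)

theorem db_single (g : G) (c : ℤ) : db G (single g c) = single (g + g) c := by
  simp [db, two_nsmul]

theorem db_sq (x : AddMonoidAlgebra ℤ G) : 2 ∣ db G x - x ^ 2 := by
  induction x using AddMonoidAlgebra.induction_linear with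
  | zero => simp
  | add x y hx hy =>
    obtain ⟨c, hc⟩ := hx
    obtain ⟨d, hd⟩ := hy
    exact ⟨c + d - x * y, by rw [map_add]; linear_combination hc + hd⟩
  | single g c =>
    obtain ⟨d, hd⟩ := Int.even_mul_pred_self c
    refine ⟨single (g + g) (-d), ?_⟩
    rw [db_single, sq, single_mul_single, two_mul, ← single_add, ← single_sub]
    congr 1
    linear_combination -hd

theorem db_iter (k : ℕ) (x : AddMonoidAlgebra ℤ G) : 2 ∣ x ^ 2 ^ k - (db G ^ k) x := by
  induction k with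
  | zero => simp
  | succ k ih =>
    obtain ⟨c, hc⟩ := ih
    obtain ⟨d, hd⟩ := db_sq ((db G ^ k) x)
    refine ⟨c * (x ^ 2 ^ k + (db G ^ k) x) - d, ?_⟩
    rw [pow_succ' (db G), RingHom.coe_mul, Function.comp, pow_succ, pow_mul]
    linear_combination (x ^ 2 ^ k + (db G ^ k) x) * hc - hd

theorem db_pow {f : ℕ} (hf : ∀ g : G, 2 ^ f • g = g) (x : AddMonoidAlgebra ℤ G) :
    (db G ^ f) x = x := by
  have h1 : ∀ (k : ℕ) (g : G) (c : ℤ), (db G ^ k) (single g c) = single (2 ^ k • g) c := by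
    intro k g c
    induction k with
    | zero => simp
    | succ k ih =>
      rw [pow_succ' (db G), RingHom.coe_mul, Function.comp, ih, db_single, pow_succ, mul_nsmul,
        two_nsmul]
  induction x using AddMonoidAlgebra.induction_linear with
  | zero => simp
  | add x y hx hy => rw [map_add, hx, hy]
  | single g c => rw [h1, hf]

theorem db_key {f : ℕ} (h0 : 0 < f) (hf : ∀ g : G, 2 ^ f • g = g) (a : ℕ)
    (x : AddMonoidAlgebra ℤ G) : ∃ r s, db G x = x * r + 2 ^ a * s := by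
  have h1 : 1 < 2 ^ f := Nat.one_lt_two_pow h0.ne'
  refine key (db G) (k := 2 ^ f - 1) (by omega) db_sq (fun y => ?_) a x
  have := db_iter f y
  rwa [db_pow hf, ← Nat.sub_add_cancel h1.le] at this

end Pool.Agent.P.MP_28ad2c_co.Per
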