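import Pool.Agent.P.MP_28ad2c_co.Per1

/-! Sidon sets with a periodic set of differences. -/

namespace Pool.Agent.P.MP_28ad2c_co.Per

open Finset Gap Three AddMonoidAlgebra

set_option linter.unusedSectionVars false

variable {G : Type*} [AddCommGroup G] [Fintype G] [DecidableEq G] {A : Finset G} {h : G}

/-- number of representations as `2 a - b` -/
def F (A : Finset G) (x : G) : ℤ := ∑ a ∈ A, ind A (a + a - x)

theorem F_eq (x : G) : F A x = gg A x := card_form _

theorem coeff_conv (p : G → G) (x : G) :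
    ((∑ a ∈ A, single (p a) 1 : AddMonoidAlgebra ℤ G) * ∑ b ∈ A, single (-b) 1).coeff x =
      ∑ a ∈ A, ind A (p a - x) := by
  simp only [sum_mul_sum, single_mul_single, coeff_sum, coeff_single, Finsupp.finsetSum_apply,
    Finsupp.single_apply, mul_one]
  refine sum_congr rfl fun a _ => ?_
  rw [← sum_eq]
  exact sum_congr rfl fun b _ => if_congr
    ⟨fun e => by rw [← e]; abel, fun e => by rw [e]; abel⟩ rfl rfl

theorem pp_split (hS : Sid A) (z : G) :
    pp A z = (if z = 0 then (A.card : ℤ) else 0) + if z ∈ DD A then 1 else 0 := by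
  by_cases hz : z = 0
  · simp [hz, pp_zero, zero_notMem_DD]
  · simp [pp_of_ne hS hz, hz]

theorem F_mod (hS : Sid A) (hper : ∀ x, x + h ∈ DD A ↔ x ∈ DD A) {f : ℕ} (h0 : 0 < f)
    (hf : ∀ g : G, 2 ^ f • g = g) {a : ℕ} (ha : 2 ^ a ∣ A.card) (x : G) :
    (2 : ℤ) ^ a ∣ F A x - F A (x + h) := by
  set u : AddMonoidAlgebra ℤ G := ∑ a ∈ A, single a 1 with hu
  set v : AddMonoidAlgebra ℤ G := ∑ a ∈ A, single (-a) 1 with hv
  have e1 : u * v - u * v * single (-h) 1 = single 0 (A.card : ℤ) - single (-h) (A.card : ℤ) := by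
    ext z
    have c := fun z => coeff_conv (A := A) (fun a => a) z
    simp only [coeff_sub, Finsupp.sub_apply, coeff_mul_single_apply, neg_neg, mul_one,
      coeff_single, Finsupp.single_apply, hu, hv, c]
    change pp A z - pp A (z + h) = _
    simp only [pp_split hS, hper, add_eq_zero_iff_eq_neg, eq_comm (a := z)]
    ring
  obtain ⟨k, hk⟩ := ha
  obtain ⟨r, s, hr⟩ := db_key h0 hf a u
  have e2 : (single 0 (A.card : ℤ) - single (-h) (A.card : ℤ) : AddMonoidAlgebra ℤ G) =
      2 ^ a * (single 0 (k : ℤ) - single (-h) (k : ℤ)) := by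
    have : (2 ^ a : AddMonoidAlgebra ℤ G) = single 0 (2 ^ a) := by
      rw [ofNat_def, single_pow]; simp
    rw [this, mul_sub, single_mul_single, single_mul_single, hk]
    simp
  have e3 : db G u * v - db G u * v * single (-h) 1 = (2 ^ a : ℕ) •
      ((single 0 (k : ℤ) - single (-h) (k : ℤ)) * r + s * (v - v * single (-h) 1)) := by
    rw [nsmul_eq_mul, hr]
    push_cast
    linear_combination r * e1 + r * e2
  have e4 := congrArg (fun w : AddMonoidAlgebra ℤ G => w.coeff x) e3
  have c := fun z => coeff_conv (A := A) (fun a => a + a) z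
  simp only [hu, map_sum, db_single, hv, coeff_sub, Finsupp.sub_apply, coeff_mul_single_apply,
    neg_neg, mul_one, c, coeff_smul_apply] at e4
  rw [nsmul_eq_mul] at e4
  exact ⟨_, by push_cast at e4; exact e4⟩

theorem corrF (s : G) : ∑ x, F A x * F A (x + s) = ∑ a ∈ A, ∑ b ∈ A, pp A (a + a - (b + b) + s) := by
  have e1 : ∀ a b, ∑ x, ind A (a + a - x) * ind A (b + b - (x + s)) =
      pp A (a + a - (b + b) + s) := fun a b => by
    rw [← Equiv.sum_comp (Equiv.subLeft (a + a)), pp, ← sum_ind (A := A)]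
    refine sum_congr rfl fun x _ => ?_
    congr 2 <;> simp only [Equiv.subLeft_apply] <;> abel
  simp only [F, sum_mul_sum]
  rw [sum_comm, sum_congr rfl fun a _ => sum_comm]
  simp only [e1]

theorem pointwise {M u v p q : ℤ} (hM : 2 ≤ M) (hd : M ∣ u - v) (hu : 0 ≤ u) (hv : 0 ≤ v)
    (hp : 0 ≤ p) (hq : 0 ≤ q) (hp' : u * u - 2 * u ≤ p) (hq' : v * v - 2 * v ≤ q) :
    (M - 2) * ((u - v) * (u - v)) ≤ M * (p + q) := by
  wlog huv : v ≤ u generalizing u v p q
  · have := this (dvd_sub_comm.1 hd) hv hu hq hp hq' hp' (by omega)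
    linarith
  rcases huv.eq_or_lt with rfl | hlt
  · simp; positivity
  have h1 : M ≤ u - v := Int.le_of_dvd (by omega) hd
  have h2 : (u - v) * (u - v) - 2 * (u - v) ≤ p + q := by nlinarith
  nlinarith [mul_le_mul_of_nonneg_left h2 (show 0 ≤ M by omega)]

theorem bound (hS : Sid A) (hh : h ≠ 0) (hper : ∀ x, x + h ∈ DD A ↔ x ∈ DD A) {f : ℕ}
    (h0 : 0 < f) (hf : ∀ g : G, 2 ^ f • g = g) {a : ℕ} (ha : 2 ^ a ∣ A.card) :
    2 ^ a * A.card ≤ 2 ^ a * (LL A).card + 2 * A.card := by
  rcases a.eq_zero_or_pos with rfl | ha0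
  · omega
  have hev : A.card % 2 = 0 := by
    obtain ⟨k, hk⟩ := (dvd_pow_self 2 ha0.ne').trans ha
    omega
  have hM : (2 : ℤ) ≤ 2 ^ a := by
    exact_mod_cast Nat.le_self_pow ha0.ne' 2
  have hmul : ∀ k : ℕ, k • h ∉ DD A := fun k => by
    induction k with
    | zero => simpa using zero_notMem_DD
    | succ k ih => rwa [succ_nsmul, hper]
  have d0 : ∀ b ∈ A, ∀ c ∈ A, (b + b - (c + c) = 0 ↔ b = c) := fun b hb c hc =>
    ⟨fun e => hS.dbl hb hc (sub_eq_zero.1 e), fun e => by simp [e]⟩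
  have d1 : ∀ b ∈ A, ∀ c ∈ A, b + b - (c + c) + h ≠ 0 := fun b hb c hc e => by
    have e1 : h = 2 • (c - b) := by rw [two_nsmul]; linear_combination (norm := abel1) e
    refine hmul (2 ^ (f - 1)) (mem_DD.2 ⟨c, hc, b, hb, fun e2 => hh (by simp [e1, e2]), ?_⟩)
    rw [e1, ← mul_nsmul, ← pow_succ', Nat.sub_add_cancel h0, hf]
  set m : ℤ := (A.card : ℤ) with hm
  set N : ℤ := ∑ b ∈ A, ∑ c ∈ A, if b + b - (c + c) ∈ DD A then 1 else 0 with hN
  have s0 : ∑ b ∈ A, ∑ c ∈ A, (if b + b - (c + c) = 0 then m else 0) = m * m := by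
    rw [sum_congr rfl (g := fun _ => m) fun b hb => ?_]
    · simp [hm]
    · rw [sum_congr rfl fun c hc => if_congr (d0 b hb c hc) rfl rfl]
      simp [hb]
  have c0 : ∑ x, F A x * F A x = m * m + N := by
    have := corrF (A := A) 0
    simp only [add_zero, pp_split hS, sum_add_distrib] at this
    rw [this, s0]
  have c1 : ∑ x, F A x * F A (x + h) = N := by
    rw [corrF]
    refine sum_congr rfl fun b hb => sum_congr rfl fun c hc => ?_
    simp only [pp_split hS, hper, if_neg (d1 b hb c hc), zero_add]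
  have hNle : N ≤ m * m - m := by
    have : ∀ b ∈ A, ∑ c ∈ A, (if b + b - (c + c) ∈ DD A then (1 : ℤ) else 0) ≤ m - 1 :=
      fun b hb => by
        have : ∑ c ∈ A, (if b + b - (c + c) ∈ DD A then (1 : ℤ) else 0) ≤
            ∑ c ∈ A, (1 - if c = b then 1 else 0) := sum_le_sum fun c _ => by
          by_cases e : c = b
          · simp [e, zero_notMem_DD]
          · simp only [e, if_false]; split_ifs <;> simp
        simpa [hb, hm] using this
    have := sum_le_sum this
    rw [sum_const, nsmul_eq_mul] at this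
    linarith
  set ψ : G → ℤ := fun x => F A x * F A x - 2 * F A x + ind A x + Gap.ff A x with hψ
  have F0 : ∀ x, 0 ≤ F A x := fun x => sum_nonneg fun _ _ => ind_nonneg _
  have p1 : ∀ x, F A x * F A x - 2 * F A x ≤ ψ x := fun x => by
    have := ind_nonneg (A := A) x
    simp only [hψ]
    omega
  have p0 : ∀ x, 0 ≤ ψ x := fun x => by
    simp only [hψ, F_eq, ind]
    split_ifs with hx
    · simp [gg_mem hS hx]
    have := parity hS hx
    rcases Nat.lt_trichotomy (gg A x) 1 with e | e | e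
    · simp [show gg A x = 0 by omega]
    · rw [e]; omega
    · have : (2 : ℤ) ≤ gg A x := by omega
      nlinarith [Nat.cast_nonneg (α := ℤ) (Gap.ff A x)]
  have sF : ∑ x, F A x = m * m := by
    simp only [F_eq, hm]
    exact_mod_cast sum_gg
  have sψ : ∑ x, ψ x = N - m * m + m + m * (LL A).card := by
    have e1 : ∑ x, (Gap.ff A x : ℤ) = m * (LL A).card := by
      rw [hm]; exact_mod_cast Gap.sum_ff
    have e2 : ∑ x, ind A x = m := sum_ind_equiv (Equiv.refl G)
    simp only [hψ, sum_add_distrib, sum_sub_distrib, ← mul_sum, c0, sF, e1, e2]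
    ring
  have s := sum_le_sum fun x (_ : x ∈ univ) => pointwise hM (F_mod hS hper h0 hf ha x) (F0 x)
    (F0 (x + h)) (p0 x) (p0 (x + h)) (p1 x) (p1 (x + h))
  have t1 : ∑ x, ψ (x + h) = ∑ x, ψ x := Equiv.sum_comp (Equiv.addRight h) ψ
  have t2 : ∑ x, F A (x + h) * F A (x + h) = ∑ x, F A x * F A x :=
    Equiv.sum_comp (Equiv.addRight h) fun x => F A x * F A x
  have t3 : ∑ x, (F A x - F A (x + h)) * (F A x - F A (x + h)) = 2 * (m * m) := by
    rw [sum_congr rfl (g := fun x => F A x * F A x + F A (x + h) * F A (x + h) -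
      2 * (F A x * F A (x + h))) fun x _ => by ring]
    rw [sum_sub_distrib, sum_add_distrib, ← mul_sum, t2, c0, c1]
    ring
  rw [← mul_sum, ← mul_sum, t3, sum_add_distrib, t1, sψ] at s
  rcases A.card.eq_zero_or_pos with e | e
  · simp [e]
  have m0 : (0 : ℤ) < m := by omega
  have : (2 : ℤ) ^ a * m ≤ 2 ^ a * (LL A).card + 2 * m := by
    refine le_of_mul_le_mul_left ?_ m0
    nlinarith [mul_le_mul_of_nonneg_left hNle (show (0 : ℤ) ≤ 2 ^ a by positivity)]
  rw [hm] at this
  exact_mod_cast this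

end Pool.Agent.P.MP_28ad2c_co.Per
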