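import Pool.Agent.P.MP_28ad2c_co.Gap1

/-! Two non-differences and order divisible by three. -/

namespace Pool.Agent.P.MP_28ad2c_co.Three

open Finset Gap

set_option linter.unusedSectionVars false

variable {G : Type*} [AddCommGroup G] [Fintype G] [DecidableEq G] {A : Finset G} {g : G}

/-- indicator -/
def ind (A : Finset G) (y : G) : ℤ := if y ∈ A then 1 else 0

/-- number of representations as an ordered sum -/
def rr (A : Finset G) (x : G) : ℤ := ∑ a ∈ A, ind A (x - a)

/-- number of representations as a difference -/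
def pp (A : Finset G) (z : G) : ℤ := ∑ c ∈ A, ind A (c - z)

/-- number of representations as `3 a - b` -/
def ff (A : Finset G) (x : G) : ℤ := ∑ a ∈ A, ind A (a + a + a - x)

theorem ind_nonneg (y : G) : 0 ≤ ind A y := by unfold ind; split_ifs <;> simp

theorem sum_ind (f : G → ℤ) : ∑ y, ind A y * f y = ∑ y ∈ A, f y := by
  simp [ind]

theorem sum_ind_equiv (e : G ≃ G) : ∑ x, ind A (e x) = A.card := by
  rw [e.sum_comp (ind A)]
  simpa using sum_ind (A := A) fun _ => 1

theorem sum_eq (w : G) : ∑ b ∈ A, (if b = w then (1 : ℤ) else 0) = ind A w := by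
  simp [ind]

theorem card_form (p : G → Prop) [DecidablePred p] :
    ∑ a ∈ A, (if p a then (1 : ℤ) else 0) = (A.filter p).card := by simp

theorem rr_le (h : Sid A) (x : G) : rr A x ≤ 2 := by
  unfold rr ind
  rw [card_form]
  rcases (A.filter fun a => x - a ∈ A).eq_empty_or_nonempty with e | ⟨a, ha⟩
  · simp [e]
  have : (A.filter fun a => x - a ∈ A) ⊆ {a, x - a} := fun b hb => by
    rw [mem_filter] at ha hb
    rcases h b hb.1 _ hb.2 a ha.1 _ ha.2 (by abel) with e | e <;> simp [e.1]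
  exact_mod_cast (card_le_card this).trans card_le_two

theorem pp_zero : pp A 0 = A.card := by
  simp +contextual [pp, ind]

theorem pp_of_ne (h : Sid A) {z : G} (hz : z ≠ 0) : pp A z = if z ∈ DD A then 1 else 0 := by
  unfold pp ind
  rw [card_form]
  split_ifs with hD
  · obtain ⟨a, ha, b, hb, hab, rfl⟩ := mem_DD.1 hD
    rw [Nat.cast_eq_one, card_eq_one]
    refine ⟨a, eq_singleton_iff_unique_mem.2 ⟨by simp [ha, hb], fun c hc => ?_⟩⟩
    rw [mem_filter] at hc
    exact (h.diff ha hb hc.1 hc.2 hab (by abel)).1.symm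
  · rw [Nat.cast_eq_zero, card_eq_zero, filter_eq_empty_iff]
    exact fun c hc hc' => hD (mem_DD.2 ⟨c, hc, _, hc', fun e => hz (sub_eq_self.1 e.symm), by abel⟩)

theorem pp_eq (h : Sid A) (hL : LL A = {g, -g}) (hg : g ≠ -g) (z : G) : pp A z =
    1 + (A.card - 1) * (if z = 0 then 1 else 0) - (if z = g then 1 else 0) -
      if z = -g then 1 else 0 := by
  have h0 : g ≠ 0 := by rintro rfl; simp at hg
  have h1 : z = g ∨ z = -g ↔ z ≠ 0 ∧ z ∉ DD A := by rw [← mem_LL, hL]; simp
  by_cases hz : z = 0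
  · simp [hz, pp_zero, h0, h0.symm]
  rw [pp_of_ne h hz, if_neg hz]
  by_cases h2 : z = g
  · rw [if_neg (h1.1 (.inl h2)).2, if_pos h2, if_neg (h2 ▸ hg)]; simp
  by_cases h3 : z = -g
  · rw [if_neg (h1.1 (.inr h3)).2, if_neg h2, if_pos h3]; simp
  rw [if_pos (by tauto), if_neg h2, if_neg h3]; simp

theorem frob (ψ : G → ZMod 3) (s : Finset G) :
    ∑ a ∈ s, ∑ b ∈ s, ∑ c ∈ s, ψ (a + b + c) = ∑ a ∈ s, ψ (a + a + a) := by
  classical
  induction s using Finset.induction_on with
  | empty => simp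
  | insert t s ht ih =>
    simp only [sum_insert ht, sum_add_distrib, ih]
    have e1 : ∑ b ∈ s, ψ (t + b + t) = ∑ b ∈ s, ψ (t + t + b) :=
      sum_congr rfl fun _ _ => by abel_nf
    have e2 : ∑ b ∈ s, ψ (b + t + t) = ∑ b ∈ s, ψ (t + t + b) :=
      sum_congr rfl fun _ _ => by abel_nf
    have e3 : ∑ a ∈ s, ∑ b ∈ s, ψ (a + t + b) = ∑ a ∈ s, ∑ b ∈ s, ψ (t + a + b) :=
      sum_congr rfl fun _ _ => sum_congr rfl fun _ _ => by abel_nf
    have e4 : ∑ a ∈ s, ∑ b ∈ s, ψ (a + b + t) = ∑ a ∈ s, ∑ b ∈ s, ψ (t + a + b) :=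
      sum_congr rfl fun _ _ => sum_congr rfl fun _ _ => by abel_nf
    rw [e1, e2, e3, e4]
    have h3 : (3 : ZMod 3) = 0 := rfl
    linear_combination (∑ b ∈ s, ψ (t + t + b) + ∑ a ∈ s, ∑ b ∈ s, ψ (t + a + b)) * h3

section

variable (h : Sid A) (hL : LL A = {g, -g}) (hg : g ≠ -g)
include h hL hg

theorem ff_mod (x : G) : ff A x ≡ A.card * A.card + (A.card - 1) * rr A x - rr A (x - g) -
    rr A (x + g) [ZMOD 3] := by
  have e : ∀ w, ∑ a ∈ A, ∑ b ∈ A, (if x - a - b = w then (1 : ℤ) else 0) = rr A (x - w) :=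
    fun w => sum_congr rfl fun a _ => by
      rw [← sum_eq]
      exact sum_congr rfl fun b _ => if_congr
        ⟨fun e => by rw [← e]; abel, fun e => by rw [e]; abel⟩ rfl rfl
  have e1 : ∑ a ∈ A, ∑ b ∈ A, ∑ c ∈ A, ind A (a + b + c - x) = A.card * A.card +
      (A.card - 1) * rr A x - rr A (x - g) - rr A (x + g) := by
    have : ∀ a b, ∑ c ∈ A, ind A (a + b + c - x) = pp A (x - a - b) := fun a b =>
      sum_congr rfl fun c _ => by congr 1; abel
    simp only [this, pp_eq h hL hg, sum_sub_distrib, sum_add_distrib, ← mul_sum, e]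
    simp
  rw [← e1]
  refine (ZMod.intCast_eq_intCast_iff _ _ 3).1 ?_
  unfold ff
  push_cast
  exact (frob (fun y => (ind A (y - x) : ZMod 3)) A).symm

theorem corr (s t : G) : ∑ x, rr A (x + s) * rr A (x + t) = A.card * A.card +
    (A.card - 1) * pp A (t - s) - pp A (t - s - g) - pp A (t - s + g) := by
  have e : ∀ w, ∑ a ∈ A, ∑ b ∈ A, (if t - s + a - b = w then (1 : ℤ) else 0) =
      pp A (t - s - w) := fun w => by
    rw [sum_comm]
    refine sum_congr rfl fun b _ => ?_
    rw [← sum_eq]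
    exact sum_congr rfl fun a _ => if_congr
      ⟨fun e => by rw [← e]; abel, fun e => by rw [e]; abel⟩ rfl rfl
  have e1 : ∀ a b, ∑ x, ind A (x + s - a) * ind A (x + t - b) = pp A (t - s + a - b) := fun a b => by
    rw [← Equiv.sum_comp (Equiv.addRight (b - t)), pp, ← sum_ind (A := A)]
    refine sum_congr rfl fun x _ => ?_
    rw [mul_comm]
    congr 2 <;> simp only [Equiv.coe_addRight] <;> abel
  simp only [rr, sum_mul_sum]
  rw [sum_comm, sum_congr rfl fun a _ => sum_comm]
  simp only [e1, pp_eq h hL hg (t - s + _ - _), sum_sub_distrib, sum_add_distrib, ← mul_sum, e]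
  simp

end

theorem sum_rr (s : G) : ∑ x, rr A (x + s) = A.card * A.card := by
  unfold rr
  rw [sum_comm, sum_congr rfl (g := fun _ => (A.card : ℤ)) fun a _ => ?_]
  · simp
  · simpa [add_sub_assoc] using sum_ind_equiv (A := A) (Equiv.addRight (s - a))

theorem sum_ff : ∑ x, ff A x = A.card * A.card := by
  unfold ff
  rw [sum_comm, sum_congr rfl (g := fun _ => (A.card : ℤ)) fun a _ => ?_]
  · simp
  · simpa using sum_ind_equiv (A := A) (Equiv.subLeft (a + a + a))

theorem bound (h : Sid A) (hL : LL A = {g, -g}) (hg : g ≠ -g) (h3 : A.card % 3 = 1) :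
    A.card ≤ 18 := by
  have h0 : g + g ≠ 0 := fun e => hg (eq_neg_of_add_eq_zero_left e)
  have hn := card_LL h
  rw [hL, card_pair hg] at hn
  have nn : ∀ z, 0 ≤ pp A z := fun z => sum_nonneg fun _ _ => ind_nonneg _
  have p1 : pp A g = 0 ∧ pp A (-g) = 0 := by
    have : g ≠ 0 := by rintro rfl; simp at hg
    constructor <;> simp [pp_eq h hL hg, this, hg, hg.symm]
  have p2 : pp A (g + g) ≤ 1 := by rw [pp_of_ne h h0]; split_ifs <;> simp
  have c1 := corr h hL hg (-g) (-g)
  have c2 := corr h hL hg g g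
  have c3 := corr h hL hg (-g) g
  simp only [sub_self, zero_sub, zero_add, pp_zero, p1.1, p1.2, sub_neg_eq_add,
    add_sub_cancel_right] at c1 c2 c3
  have pt : ∀ x, 4 + 2 * (rr A (x + -g) + rr A (x + g)) - 3 * (rr A (x + -g) * rr A (x + g)) -
      12 * (rr A (x + -g) + rr A (x + g)) + 6 * (rr A (x + -g) * rr A (x + -g) +
        rr A (x + g) * rr A (x + g)) ≤ 4 * ff A x := fun x => by
    have m1 := ff_mod h hL hg x
    have f0 : 0 ≤ ff A x := sum_nonneg fun _ _ => ind_nonneg _
    have u0 : ∀ y, 0 ≤ rr A y := fun y => sum_nonneg fun _ _ => ind_nonneg _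
    obtain ⟨k, hk⟩ : ∃ k : ℤ, (A.card : ℤ) = 3 * k + 1 := ⟨A.card / 3, by omega⟩
    rw [sub_eq_add_neg x, hk] at m1
    have m2 : (ff A x + rr A (x + -g) + rr A (x + g)) % 3 = 1 := by
      obtain ⟨c, hc⟩ := m1.dvd
      have : ff A x + rr A (x + -g) + rr A (x + g) =
          1 + 3 * (3 * k * k + 2 * k + k * rr A x - c) := by linear_combination -hc
      omega
    have u1 := u0 (x + -g)
    have u2 := rr_le h (x + -g)
    have v1 := u0 (x + g)
    have v2 := rr_le h (x + g)
    generalize rr A (x + -g) = u at *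
    generalize rr A (x + g) = v at *
    interval_cases u <;> interval_cases v <;> omega
  have s := sum_le_sum fun x (_ : x ∈ univ) => pt x
  simp only [sum_add_distrib, sum_sub_distrib, ← mul_sum, sum_rr, sum_ff, c1, c2, c3, sum_const,
    card_univ, nsmul_eq_mul] at s
  have hn' : (Fintype.card G : ℤ) = A.card * A.card + 3 - A.card := by
    have : ((2 + A.card * A.card + 1 : ℕ) : ℤ) = (Fintype.card G + A.card : ℕ) := by rw [hn]
    push_cast at this
    linarith
  have n3 := nn (g + g + g)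
  have m1 : (1 : ℤ) ≤ A.card := by omega
  by_contra hc
  have m2 : (19 : ℤ) ≤ A.card := by omega
  rw [hn'] at s
  nlinarith [mul_le_mul_of_nonneg_left p2 (sub_nonneg.2 m1)]

end Pool.Agent.P.MP_28ad2c_co.Three
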